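import Pool.Agent.Helper20K9.UL.Stm

/-!
Project UL: [BC] Borel-Cantelli for families of polynomial size.
-/

set_option autoImplicit false

namespace Pool.Agent.Helper20K9.UL

open MeasureTheory Filter Topology Metric Set
open scoped ENNReal NNReal

namespace BCL

/-- The computation with the powers of two. -/
theorem pw {m : ℕ} (hm : 1 ≤ m) {n : ℕ} {k : ℕ} {β ε Q C' p c : ℝ} (hQ : 0 < Q) (hC' : 0 < C')
    (hk : (k : ℝ) + 1 ≤ ε * m) (hc : c ≤ Q * (2 : ℝ) ^ (β * n))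
    (h : ((2 : ℝ) ^ ((β - 1/4 + ε) * n)) ^ m * p ≤
      C' * (((2 : ℝ) ^ (-(n : ℝ))) ^ (1/4 : ℝ)) ^ m * c *
        (m * (Q * (2 : ℝ) ^ (β * n))) ^ (m - 1)) :
    p ≤ C' * Q * (m * Q) ^ (m - 1) * (2 : ℝ) ^ (-(((k : ℝ) + 1) * n)) := by
  have h2 : (0 : ℝ) < 2 := by norm_num
  have e1 : ((2 : ℝ) ^ ((β - 1/4 + ε) * n)) ^ m = (2 : ℝ) ^ ((β - 1/4 + ε) * n * m) := by
    rw [← Real.rpow_natCast, ← Real.rpow_mul h2.le]
  have e2 : (((2 : ℝ) ^ (-(n : ℝ))) ^ (1/4 : ℝ)) ^ m = (2 : ℝ) ^ (-(n : ℝ) * (1/4) * m) := by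
    rw [← Real.rpow_natCast, ← Real.rpow_mul h2.le, ← Real.rpow_mul h2.le]
  have e3 : ((m : ℝ) * (Q * (2 : ℝ) ^ (β * n))) ^ (m - 1) =
      ((m : ℝ) * Q) ^ (m - 1) * (2 : ℝ) ^ (β * n * ((m : ℝ) - 1)) := by
    rw [← mul_assoc, mul_pow, ← Real.rpow_natCast ((2 : ℝ) ^ (β * n)), ← Real.rpow_mul h2.le,
      Nat.cast_sub hm, Nat.cast_one]
  rw [e1, e2, e3] at h
  have hmQ : 0 ≤ ((m : ℝ) * Q) ^ (m - 1) := by positivity
  have h5 : (2 : ℝ) ^ ((β - 1/4 + ε) * n * m) * p ≤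
      C' * (2 : ℝ) ^ (-(n : ℝ) * (1/4) * m) * (Q * (2 : ℝ) ^ (β * n)) *
        (((m : ℝ) * Q) ^ (m - 1) * (2 : ℝ) ^ (β * n * ((m : ℝ) - 1))) := by
    refine h.trans ?_
    apply mul_le_mul_of_nonneg_right _ (by positivity)
    exact mul_le_mul_of_nonneg_left hc (by positivity)
  have h6 : C' * (2 : ℝ) ^ (-(n : ℝ) * (1/4) * m) * (Q * (2 : ℝ) ^ (β * n)) *
        (((m : ℝ) * Q) ^ (m - 1) * (2 : ℝ) ^ (β * n * ((m : ℝ) - 1))) =
      (2 : ℝ) ^ ((β - 1/4 + ε) * n * m) *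
        (C' * Q * (m * Q) ^ (m - 1) * (2 : ℝ) ^ (-(ε * m * n))) := by
    have : (2 : ℝ) ^ (-(n : ℝ) * (1/4) * m) * (2 : ℝ) ^ (β * n) *
        (2 : ℝ) ^ (β * n * ((m : ℝ) - 1)) =
        (2 : ℝ) ^ ((β - 1/4 + ε) * n * m) * (2 : ℝ) ^ (-(ε * m * n)) := by
      rw [← Real.rpow_add h2, ← Real.rpow_add h2, ← Real.rpow_add h2]
      congr 1
      ring
    calc _ = C' * Q * (m * Q) ^ (m - 1) * ((2 : ℝ) ^ (-(n : ℝ) * (1/4) * m) *
          (2 : ℝ) ^ (β * n) * (2 : ℝ) ^ (β * n * ((m : ℝ) - 1))) := by ring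
      _ = _ := by rw [this]; ring
  rw [h6] at h5
  have h7 := le_of_mul_le_mul_left h5 (Real.rpow_pos_of_pos h2 _)
  refine h7.trans ?_
  apply mul_le_mul_of_nonneg_left _ (by positivity)
  apply Real.rpow_le_rpow_of_exponent_le (by norm_num)
  have : ((k : ℝ) + 1) * n ≤ ε * m * n := mul_le_mul_of_nonneg_right hk (by positivity)
  linarith

end BCL

theorem bc : S_TB → S_MO → S_BC := by
  intro hTB hMO Ω _ μ _ K hmeas A C r1 s1 hA hC hr1 hs1 hMP k Q β ε 𝒯 hQ hε hβ hcard hT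
  obtain ⟨m, hm⟩ : ∃ m : ℕ, (k : ℝ) + 1 ≤ ε * m := by
    obtain ⟨m, hm⟩ := exists_nat_ge (((k : ℝ) + 1) / ε)
    exact ⟨m, by rw [div_le_iff₀ hε] at hm; linarith⟩
  have hm1 : 1 ≤ m := by
    rcases Nat.eq_zero_or_pos m with h | h
    · exfalso
      rw [h, Nat.cast_zero, mul_zero] at hm
      have : (0 : ℝ) ≤ k := Nat.cast_nonneg k
      linarith
    · exact h
  obtain ⟨C', hC', hb⟩ := hTB μ K A C r1 s1 hA hC hs1 hMP m
  have h2 : (0 : ℝ) < 2 := by norm_num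
  set D : ℝ := C' * Q * (m * Q) ^ (m - 1) with hD
  have hD0 : 0 ≤ D := by positivity
  have hr01 : ∀ n : ℕ, (2 : ℝ) ^ (-(n : ℝ)) ≤ 1 := by
    intro n
    apply Real.rpow_le_one_of_one_le_of_nonpos (by norm_num)
    have : (0 : ℝ) ≤ n := Nat.cast_nonneg n
    linarith
  have hone : ∀ n : ℕ, (2 : ℝ) ^ (-(n : ℝ)) ≤ r1 → ∀ T ∈ 𝒯 n,
      μ.real {ω | (2 : ℝ) ^ ((β - 1/4 + ε) * n) ≤ cnt K T ((2 : ℝ) ^ (-(n : ℝ))) ω} ≤
        D * (2 : ℝ) ^ (-(((k : ℝ) + 1) * n)) := by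
    intro n hn T hTn
    obtain ⟨hTA, hTc, hTs⟩ := hT n T hTn
    have h3 := hMO μ K hmeas m hm1 T ((2 : ℝ) ^ (-(n : ℝ)))
      (C' * (((2 : ℝ) ^ (-(n : ℝ))) ^ (1/4 : ℝ)) ^ m) (Q * (2 : ℝ) ^ (β * n))
      ((2 : ℝ) ^ ((β - 1/4 + ε) * n)) (by positivity) (by positivity) (by positivity)
      (by positivity)
      (fun x hx => hb x _ (by positivity) hn (hr01 n) (fun i hi => hTA _ (hx i hi))) hTs
    exact BCL.pw hm1 hQ hC' hm hTc h3
  -- the bad events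
  let B : ℕ → Set Ω := fun n => {ω | (2 : ℝ) ^ (-(n : ℝ)) ≤ r1 ∧ ∃ T ∈ 𝒯 n,
    (2 : ℝ) ^ ((β - 1/4 + ε) * n) < cnt K T ((2 : ℝ) ^ (-(n : ℝ))) ω}
  have hB : ∀ n, μ (B n) ≤ ENNReal.ofReal (Q * D * (1/2) ^ n) := by
    intro n
    by_cases hn : (2 : ℝ) ^ (-(n : ℝ)) ≤ r1
    · have hsub : B n ⊆ ⋃ T ∈ 𝒯 n,
          {ω | (2 : ℝ) ^ ((β - 1/4 + ε) * n) ≤ cnt K T ((2 : ℝ) ^ (-(n : ℝ))) ω} := by
        rintro ω ⟨_, T, hTn, hlt⟩
        exact Set.mem_iUnion₂.2 ⟨T, hTn, hlt.le⟩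
      calc μ (B n) ≤ μ (⋃ T ∈ 𝒯 n,
          {ω | (2 : ℝ) ^ ((β - 1/4 + ε) * n) ≤ cnt K T ((2 : ℝ) ^ (-(n : ℝ))) ω}) :=
            measure_mono hsub
        _ ≤ ∑ T ∈ 𝒯 n,
          μ {ω | (2 : ℝ) ^ ((β - 1/4 + ε) * n) ≤ cnt K T ((2 : ℝ) ^ (-(n : ℝ))) ω} :=
            measure_biUnion_finset_le _ _
        _ ≤ ∑ T ∈ 𝒯 n, ENNReal.ofReal (D * (2 : ℝ) ^ (-(((k : ℝ) + 1) * n))) := by
            apply Finset.sum_le_sum
            intro T hTn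
            rw [← ofReal_measureReal (measure_ne_top _ _)]
            exact ENNReal.ofReal_le_ofReal (hone n hn T hTn)
        _ = ENNReal.ofReal ((𝒯 n).card * (D * (2 : ℝ) ^ (-(((k : ℝ) + 1) * n)))) := by
            rw [Finset.sum_const, nsmul_eq_mul, ENNReal.ofReal_mul (Nat.cast_nonneg _),
              ENNReal.ofReal_natCast]
        _ ≤ ENNReal.ofReal (Q * D * (1/2) ^ n) := by
            apply ENNReal.ofReal_le_ofReal
            have e1 : (2 : ℝ) ^ (k * n) * (2 : ℝ) ^ (-(((k : ℝ) + 1) * n)) = (1/2) ^ n := by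
              rw [← Real.rpow_natCast 2 (k * n), ← Real.rpow_add h2, one_div, inv_pow,
                ← Real.rpow_natCast 2 n, ← Real.rpow_neg h2.le]
              congr 1
              push_cast
              ring
            calc ((𝒯 n).card : ℝ) * (D * (2 : ℝ) ^ (-(((k : ℝ) + 1) * n)))
                ≤ Q * 2 ^ (k * n) * (D * (2 : ℝ) ^ (-(((k : ℝ) + 1) * n))) :=
                  mul_le_mul_of_nonneg_right (hcard n) (by positivity)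
              _ = Q * D * ((2 : ℝ) ^ (k * n) * (2 : ℝ) ^ (-(((k : ℝ) + 1) * n))) := by ring
              _ = _ := by rw [e1]
    · have : B n = ∅ := by
        ext ω
        simp only [B, Set.mem_setOf_eq, Set.mem_empty_iff_false, iff_false]
        exact fun h => hn h.1
      rw [this, measure_empty]
      exact zero_le
  have hsum : ∑' n, μ (B n) ≠ ∞ := by
    have hs : Summable (fun n : ℕ => Q * D * (1/2 : ℝ) ^ n) :=
      (summable_geometric_of_lt_one (by norm_num) (by norm_num)).mul_left _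
    have h8 : ∑' n, μ (B n) ≤ ∑' n : ℕ, ENNReal.ofReal (Q * D * (1/2 : ℝ) ^ n) :=
      ENNReal.tsum_le_tsum hB
    refine ne_top_of_le_ne_top ?_ h8
    rw [← ENNReal.ofReal_tsum_of_nonneg (fun n => by positivity) hs]
    exact ENNReal.ofReal_ne_top
  have hev : ∀ᶠ n : ℕ in atTop, (2 : ℝ) ^ (-(n : ℝ)) ≤ r1 := by
    have h9 : Tendsto (fun n : ℕ => (1/2 : ℝ) ^ n) atTop (𝓝 0) :=
      tendsto_pow_atTop_nhds_zero_of_lt_one (by norm_num) (by norm_num)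
    filter_upwards [h9.eventually_lt_const hr1] with n hn
    have : (2 : ℝ) ^ (-(n : ℝ)) = (1/2) ^ n := by
      rw [Real.rpow_neg h2.le, Real.rpow_natCast, one_div, inv_pow]
    rw [this]
    exact hn.le
  filter_upwards [ae_eventually_notMem hsum] with ω hω
  filter_upwards [hω, hev] with n hn1 hn2
  intro T hTn
  by_contra hlt
  push Not at hlt
  exact hn1 ⟨hn2, T, hTn, hlt⟩

end Pool.Agent.Helper20K9.UL
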