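import Pool.Agent.Helper20K9.UL.Lin

/-!
UL [CIR]: the circles form a family of polynomial entropy.
-/

set_option autoImplicit false

namespace Pool.Agent.Helper20K9.UL

open MeasureTheory Filter Topology Metric Set
open scoped ENNReal NNReal

theorem CirL.exp_sub_eq (x y : ℝ) :
    ‖Complex.exp (x * Complex.I) - Complex.exp (y * Complex.I)‖ = 2 * |Real.sin ((x - y) / 2)| := by
  have h : Complex.exp (x * Complex.I) - Complex.exp (y * Complex.I) =
      Complex.exp ((((x + y) / 2 : ℝ) : ℂ) * Complex.I) *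
        (2 * Complex.I * Complex.sin (((x - y) / 2 : ℝ) : ℂ)) := by
    have h1 : 2 * Complex.I * Complex.sin (((x - y) / 2 : ℝ) : ℂ) =
        Complex.exp ((((x - y) / 2 : ℝ) : ℂ) * Complex.I) -
          Complex.exp (-(((x - y) / 2 : ℝ) : ℂ) * Complex.I) := by
      rw [Complex.exp_mul_I, Complex.exp_mul_I, Complex.cos_neg, Complex.sin_neg]
      ring
    rw [h1, mul_sub, ← Complex.exp_add, ← Complex.exp_add]
    congr 2
    · push_cast
      ring
    · push_cast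
      ring
  rw [h, norm_mul, Complex.norm_exp_ofReal_mul_I, one_mul, norm_mul, norm_mul, Complex.norm_I,
    ← Complex.ofReal_sin, Complex.norm_real, Real.norm_eq_abs]
  simp

theorem CirL.le_exp_sub {x y : ℝ} (h : |x - y| ≤ 1) :
    |x - y| ≤ 2 * ‖Complex.exp (x * Complex.I) - Complex.exp (y * Complex.I)‖ := by
  have hpi := Real.pi_pos
  have hpi3 := Real.pi_gt_three
  have hpi4 := Real.pi_lt_four
  rw [exp_sub_eq]
  have h2 : |(x - y) / 2| = |x - y| / 2 := by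
    rw [abs_div, abs_two]
  have h1 := Real.mul_abs_le_abs_sin (x := (x - y) / 2) (by
    rw [h2]
    linarith)
  rw [h2] at h1
  have h3 : 1 / 2 ≤ 2 / Real.pi := by
    rw [div_le_div_iff₀ (by norm_num) hpi]
    linarith
  have h4 : 0 ≤ |x - y| := abs_nonneg _
  have h5 : 1 / 2 * (|x - y| / 2) ≤ 2 / Real.pi * (|x - y| / 2) :=
    mul_le_mul_of_nonneg_right h3 (by linarith)
  linarith

/-- a point of the circle lies in one of seven arcs -/
theorem CirL.arcs (w : ℂ) : ∃ j : Fin 7, ∃ s ∈ Icc (0:ℝ) 1,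
    w = ‖w‖ * Complex.exp (((2 * Real.pi * ((j : ℕ) / 7) + s : ℝ) : ℂ) * Complex.I) := by
  have hpi := Real.pi_pos
  have hpi4 : Real.pi < 3.15 := Real.pi_lt_d2
  obtain ⟨α, hα0, hα1, hα⟩ : ∃ α : ℝ, 0 ≤ α ∧ α < 2 * Real.pi ∧
      w = ‖w‖ * Complex.exp ((α : ℂ) * Complex.I) := by
    have h1 := Complex.norm_mul_exp_arg_mul_I w
    have h2 := Complex.neg_pi_lt_arg w
    have h3 := Complex.arg_le_pi w
    rcases le_or_gt 0 w.arg with h | h
    · exact ⟨w.arg, h, by linarith, h1.symm⟩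
    · refine ⟨w.arg + 2 * Real.pi, by linarith, by linarith, ?_⟩
      have h4 : ((w.arg + 2 * Real.pi : ℝ) : ℂ) * Complex.I =
          w.arg * Complex.I + 2 * Real.pi * Complex.I := by
        push_cast
        ring
      rw [h4, Complex.exp_add, Complex.exp_two_pi_mul_I, mul_one, h1]
  have h0 : 0 ≤ α * 7 / (2 * Real.pi) := by positivity
  have hlt : α * 7 / (2 * Real.pi) < 7 := by
    rw [div_lt_iff₀ (by positivity)]
    linarith
  have hj : ⌊α * 7 / (2 * Real.pi)⌋₊ < 7 := by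
    rw [Nat.floor_lt h0]
    exact_mod_cast hlt
  obtain ⟨q, hq⟩ : ∃ q : ℕ, q = ⌊α * 7 / (2 * Real.pi)⌋₊ := ⟨_, rfl⟩
  have h1 : (q : ℝ) ≤ α * 7 / (2 * Real.pi) := by rw [hq]; exact Nat.floor_le h0
  have h2 : α * 7 / (2 * Real.pi) < q + 1 := by rw [hq]; exact Nat.lt_floor_add_one _
  rw [le_div_iff₀ (by positivity)] at h1
  rw [div_lt_iff₀ (by positivity)] at h2
  refine ⟨⟨q, by rw [hq]; exact hj⟩, α - 2 * Real.pi * (q / 7), ⟨?_, ?_⟩, ?_⟩
  · linarith
  · linarith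
  · have h3 : (2 * Real.pi * (((⟨q, by rw [hq]; exact hj⟩ : Fin 7) : ℕ) / 7) +
        (α - 2 * Real.pi * (q / 7)) : ℝ) = α := by
      simp only
      ring
    rw [h3]
    exact hα

theorem cir : S_CIR := by
  intro hfam n
  obtain ⟨R, hR⟩ : ∃ R : ℝ, R = (n : ℝ) + 1 := ⟨_, rfl⟩
  have hR1 : 1 ≤ R := by
    rw [hR]
    have : (0:ℝ) ≤ n := Nat.cast_nonneg n
    linarith
  have hR0 : 0 < R := by linarith
  have hRi : 1 / R ≤ 1 := by rw [div_le_one hR0]; exact hR1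
  have hRi0 : 0 < 1 / R := by positivity
  have hpi := Real.pi_pos
  have hpi4 := Real.pi_lt_four
  obtain ⟨rr, hrr⟩ : ∃ rr : ℝ → ℝ, rr = fun x => 1 / R + x * (R - 1 / R) := ⟨_, rfl⟩
  have hrr1 : ∀ x ∈ Icc (0:ℝ) 1, 1 / R ≤ rr x ∧ rr x ≤ R := by
    intro x hx
    rw [hrr]
    simp only
    have h1 : 0 ≤ R - 1 / R := by linarith
    have h2 : x * (R - 1 / R) ≤ 1 * (R - 1 / R) := mul_le_mul_of_nonneg_right hx.2 h1
    have h3 : 0 ≤ x * (R - 1 / R) := mul_nonneg hx.1 h1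
    constructor <;> linarith
  have hrr2 : ∀ x y : ℝ, |rr x - rr y| ≤ R * |x - y| := by
    intro x y
    rw [hrr]
    simp only
    have h1 : 1 / R + x * (R - 1 / R) - (1 / R + y * (R - 1 / R)) = (R - 1 / R) * (x - y) := by ring
    rw [h1, abs_mul, abs_of_nonneg (by linarith)]
    exact mul_le_mul_of_nonneg_right (by linarith) (abs_nonneg _)
  obtain ⟨F, hF⟩ : ∃ F : (Fin 4 → ℝ) → ℝ → ℂ, F = fun θ s => LinL.bp R (θ 0) (θ 1) +
      (rr (θ 2) : ℂ) * Complex.exp ((2 * Real.pi * θ 3 + s : ℝ) * Complex.I) := ⟨_, rfl⟩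
  have hE := hfam 4 (13 * R) F (by positivity) (fun θ hθ θ' hθ' s hs => by
    rw [hF]
    simp only
    rw [dist_eq_norm]
    have h0 := dist_le_pi_dist θ θ' 0
    have h1 := dist_le_pi_dist θ θ' 1
    have h2 := dist_le_pi_dist θ θ' 2
    have h3 := dist_le_pi_dist θ θ' 3
    rw [Real.dist_eq] at h0 h1 h2 h3
    have h4 := LinL.bp_dist hR0 (θ 0) (θ 1) (θ' 0) (θ' 1)
    have h5 := LinL.exp_sub_le (2 * Real.pi * θ 3 + s) (2 * Real.pi * θ' 3 + s)
    have h6 : |2 * Real.pi * θ 3 + s - (2 * Real.pi * θ' 3 + s)| = 2 * Real.pi * |θ 3 - θ' 3| := by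
      have : 2 * Real.pi * θ 3 + s - (2 * Real.pi * θ' 3 + s) = 2 * Real.pi * (θ 3 - θ' 3) := by ring
      rw [this, abs_mul (2 * Real.pi), abs_of_pos (by positivity : 0 < 2 * Real.pi)]
    rw [h6] at h5
    have h7 : ∀ A B c c' x y : ℂ, A + c * x - (B + c' * y) =
        (A - B) + ((c - c') * x + c' * (x - y)) := by
      intros; ring
    rw [h7]
    refine (norm_add_le _ _).trans ?_
    have h8 : ‖((rr (θ 2) : ℂ) - (rr (θ' 2) : ℂ)) *
        Complex.exp ((2 * Real.pi * θ 3 + s : ℝ) * Complex.I)‖ ≤ R * dist θ θ' := by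
      rw [norm_mul, Complex.norm_exp_ofReal_mul_I, mul_one, ← Complex.ofReal_sub,
        Complex.norm_real, Real.norm_eq_abs]
      exact (hrr2 _ _).trans (mul_le_mul_of_nonneg_left h2 hR0.le)
    have h9 := hrr1 (θ' 2) ⟨hθ'.1 2, hθ'.2 2⟩
    have h10 : ‖(rr (θ' 2) : ℂ)‖ ≤ R := by
      rw [Complex.norm_real, Real.norm_eq_abs, abs_of_nonneg (by linarith)]
      exact h9.2
    have h11 : ‖(rr (θ' 2) : ℂ) * (Complex.exp ((2 * Real.pi * θ 3 + s : ℝ) * Complex.I) -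
        Complex.exp ((2 * Real.pi * θ' 3 + s : ℝ) * Complex.I))‖ ≤ R * (8 * dist θ θ') := by
      rw [norm_mul]
      refine mul_le_mul h10 (h5.trans ?_) (norm_nonneg _) hR0.le
      have : 2 * Real.pi * |θ 3 - θ' 3| ≤ 8 * |θ 3 - θ' 3| :=
        mul_le_mul_of_nonneg_right (by linarith) (abs_nonneg _)
      linarith
    have h12 := norm_add_le (((rr (θ 2) : ℂ) - (rr (θ' 2) : ℂ)) *
        Complex.exp ((2 * Real.pi * θ 3 + s : ℝ) * Complex.I))
        ((rr (θ' 2) : ℂ) * (Complex.exp ((2 * Real.pi * θ 3 + s : ℝ) * Complex.I) -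
        Complex.exp ((2 * Real.pi * θ' 3 + s : ℝ) * Complex.I)))
    have h13 : 2 * R * |θ 0 - θ' 0| ≤ 2 * R * dist θ θ' :=
      mul_le_mul_of_nonneg_left h0 (by positivity)
    have h14 : 2 * R * |θ 1 - θ' 1| ≤ 2 * R * dist θ θ' :=
      mul_le_mul_of_nonneg_left h1 (by positivity)
    linarith) (fun θ hθ s hs s' hs' => by
    rw [hF]
    simp only
    have h9 := hrr1 (θ 2) ⟨hθ.1 2, hθ.2 2⟩
    have h1 : dist (LinL.bp R (θ 0) (θ 1) +
        (rr (θ 2) : ℂ) * Complex.exp ((2 * Real.pi * θ 3 + s : ℝ) * Complex.I))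
        (LinL.bp R (θ 0) (θ 1) +
        (rr (θ 2) : ℂ) * Complex.exp ((2 * Real.pi * θ 3 + s' : ℝ) * Complex.I)) =
        rr (θ 2) * ‖Complex.exp ((2 * Real.pi * θ 3 + s : ℝ) * Complex.I) -
          Complex.exp ((2 * Real.pi * θ 3 + s' : ℝ) * Complex.I)‖ := by
      rw [dist_add_left, dist_eq_norm, ← mul_sub, norm_mul, Complex.norm_real, Real.norm_eq_abs,
        abs_of_nonneg (by linarith)]
    rw [h1, Real.dist_eq]
    have h2 : 2 * Real.pi * θ 3 + s - (2 * Real.pi * θ 3 + s') = s - s' := by ring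
    have h3 := LinL.exp_sub_le (2 * Real.pi * θ 3 + s) (2 * Real.pi * θ 3 + s')
    have h4 : |s - s'| ≤ 1 := by
      rw [abs_le]
      constructor <;> linarith [hs.1, hs.2, hs'.1, hs'.2]
    have h5 := CirL.le_exp_sub (x := 2 * Real.pi * θ 3 + s) (y := 2 * Real.pi * θ 3 + s')
      (by rw [h2]; exact h4)
    rw [h2] at h3 h5
    obtain ⟨E, hE⟩ : ∃ E, E = ‖Complex.exp ((2 * Real.pi * θ 3 + s : ℝ) * Complex.I) -
          Complex.exp ((2 * Real.pi * θ 3 + s' : ℝ) * Complex.I)‖ := ⟨_, rfl⟩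
    rw [← hE] at h3 h5 ⊢
    have hE0 : 0 ≤ E := by rw [hE]; exact norm_nonneg _
    constructor
    · have h6 : 1 ≤ R * rr (θ 2) := by
        have : R * (1 / R) ≤ R * rr (θ 2) := mul_le_mul_of_nonneg_left h9.1 hR0.le
        rwa [mul_one_div_cancel hR0.ne'] at this
      have h7 : 1 * E ≤ R * rr (θ 2) * E := mul_le_mul_of_nonneg_right h6 hE0
      nlinarith
    · have h6 : rr (θ 2) * E ≤ R * |s - s'| :=
        mul_le_mul h9.2 h3 hE0 hR0.le
      have h7 : 0 ≤ |s - s'| := abs_nonneg _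
      nlinarith)
  refine ⟨_, hE, fun c ρ hc hρ1 hρ2 => ?_⟩
  obtain ⟨x, hx, y, hy, hxy⟩ := LinL.bp_ex hR0 (p := c) (by rw [hR]; exact hc)
  rw [← hR] at hρ1 hρ2
  obtain ⟨u, hu, huρ⟩ : ∃ u ∈ Icc (0:ℝ) 1, rr u = ρ := by
    rcases eq_or_lt_of_le (show 1 / R ≤ R by linarith) with h | h
    · refine ⟨0, ⟨le_rfl, zero_le_one⟩, ?_⟩
      rw [hrr]
      simp only
      linarith
    · have h1 : 0 < R - 1 / R := by linarith
      refine ⟨(ρ - 1 / R) / (R - 1 / R), ⟨div_nonneg (by linarith) h1.le, ?_⟩, ?_⟩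
      · rw [div_le_one h1]
        linarith
      · rw [hrr]
        simp only
        rw [div_mul_cancel₀ _ h1.ne']
        ring
  refine ⟨fun j => F ![x, y, u, (j : ℕ) / 7] '' Icc (0:ℝ) 1, fun j => ?_, ?_⟩
  · refine ⟨_, ?_, rfl⟩
    have hj : ((j : ℕ) : ℝ) / 7 ∈ Icc (0:ℝ) 1 := by
      refine ⟨by positivity, ?_⟩
      rw [div_le_one (by norm_num)]
      have := j.2
      exact_mod_cast this.le
    constructor
    · intro i
      fin_cases i
      · exact hx.1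
      · exact hy.1
      · exact hu.1
      · exact hj.1
    · intro i
      fin_cases i
      · exact hx.2
      · exact hy.2
      · exact hu.2
      · exact hj.2
  · intro z hz
    obtain ⟨j, s, hs, h1⟩ := CirL.arcs (z - c)
    rw [mem_iUnion]
    refine ⟨j, s, hs, ?_⟩
    have h2 : ‖z - c‖ = ρ := by
      rw [mem_sphere, dist_eq_norm] at hz
      exact hz
    rw [h2] at h1
    rw [hF]
    simp only [Matrix.cons_val_zero, Matrix.cons_val_one, Matrix.cons_val]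
    rw [huρ, hxy, ← h1]
    ring

end Pool.Agent.Helper20K9.UL
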