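import Pool.Agent.Helper20K9.UL.Stm

/-!
UL [DLI]: dimension and sigma-compactness of the part of a line in an open set.
-/

set_option autoImplicit false

namespace Pool.Agent.Helper20K9.UL

open MeasureTheory Filter Topology Metric Set
open scoped ENNReal NNReal

theorem DliL.line_closed (a v : ℂ) (hv : v ≠ 0) : IsClosed {z : ℂ | ∃ t : ℝ, z = a + t * v} := by
  have h : {z : ℂ | ∃ t : ℝ, z = a + t * v} = {z : ℂ | ((z - a) / v).im = 0} := by
    ext z
    simp only [mem_ofPred_eq]
    constructor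
    · rintro ⟨t, rfl⟩
      rw [add_sub_cancel_left, mul_div_assoc, div_self hv, mul_one, Complex.ofReal_im]
    · intro hz
      refine ⟨((z - a) / v).re, ?_⟩
      have h1 : (((z - a) / v).re : ℂ) = (z - a) / v := by
        apply Complex.ext
        · simp
        · simp [hz]
      rw [h1, div_mul_cancel₀ _ hv]
      ring
  rw [h]
  exact isClosed_eq (Complex.continuous_im.comp ((continuous_id.sub continuous_const).div_const v))
    continuous_const

theorem DliL.dist_line (a v : ℂ) (t t' : ℝ) :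
    dist (a + t * v) (a + t' * v) = ‖v‖ * dist t t' := by
  have h : a + t * v - (a + t' * v) = ((t - t' : ℝ) : ℂ) * v := by
    push_cast
    ring
  rw [dist_eq_norm, h, norm_mul, Complex.norm_real, Real.dist_eq, Real.norm_eq_abs, mul_comm]

theorem dli : S_DLI := by
  intro D a v hD hv hne
  have hv0 : 0 < ‖v‖ := norm_pos_iff.2 hv
  constructor
  · obtain ⟨F, hF1, hF2, hF3, -⟩ := hD.exists_iUnion_isClosed
    have h1 : {z : ℂ | ∃ t : ℝ, z = a + t * v} ∩ D =
        ⋃ p : ℕ × ℕ, ({z : ℂ | ∃ t : ℝ, z = a + t * v} ∩ F p.1) ∩ closedBall 0 p.2 := by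
      ext z
      simp only [mem_iUnion, mem_inter_iff]
      constructor
      · rintro ⟨hz, hzD⟩
        rw [← hF3, mem_iUnion] at hzD
        obtain ⟨n, hn⟩ := hzD
        obtain ⟨k, hk⟩ := exists_nat_ge ‖z‖
        exact ⟨(n, k), ⟨hz, hn⟩, by simpa using hk⟩
      · rintro ⟨p, ⟨hz, hzF⟩, -⟩
        exact ⟨hz, hF2 _ hzF⟩
    rw [h1]
    refine isSigmaCompact_iUnion_of_isCompact _ fun p => ?_
    exact (isCompact_closedBall _ _).inter_left ((DliL.line_closed a v hv).inter (hF1 p.1))
  · refine le_antisymm ?_ ?_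
    · have h1 : LipschitzWith ‖v‖₊ (fun t : ℝ => a + t * v) := by
        refine LipschitzWith.of_dist_le_mul fun t t' => ?_
        rw [DliL.dist_line a v t t']
        rfl
      have h2 := h1.dimH_range_le
      rw [Real.dimH_univ] at h2
      refine le_trans (dimH_mono ?_) h2
      rintro z ⟨⟨t, rfl⟩, -⟩
      exact ⟨t, rfl⟩
    · have h1 : AntilipschitzWith ‖v‖₊⁻¹ (fun t : ℝ => a + t * v) := by
        refine AntilipschitzWith.of_le_mul_dist fun t t' => ?_
        rw [DliL.dist_line a v t t', NNReal.coe_inv, coe_nnnorm, ← mul_assoc, inv_mul_cancel₀ hv0.ne',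
          one_mul]
      have hc : Continuous fun t : ℝ => a + t * v := by fun_prop
      have h2 := h1.le_dimH_image ((fun t : ℝ => a + t * v) ⁻¹' D)
      have h3 : dimH ((fun t : ℝ => a + t * v) ⁻¹' D) = 1 := by
        rw [Real.dimH_of_nonempty_interior]
        · simp
        · rw [(hD.preimage hc).interior_eq]
          obtain ⟨z, ⟨t, rfl⟩, hz⟩ := hne
          exact ⟨t, hz⟩
      rw [h3] at h2
      refine h2.trans (dimH_mono ?_)
      rintro z ⟨t, ht, rfl⟩
      exact ⟨⟨t, rfl⟩, ht⟩

end Pool.Agent.Helper20K9.UL
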