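import Pool.Agent.Helper20K9.UL.Stm

/-!
UL [LIN]: the lines form a family of polynomial entropy.
-/

set_option autoImplicit false

namespace Pool.Agent.Helper20K9.UL

open MeasureTheory Filter Topology Metric Set
open scoped ENNReal NNReal

theorem LinL.exp_sub_le (x y : ℝ) :
    ‖Complex.exp (x * Complex.I) - Complex.exp (y * Complex.I)‖ ≤ |x - y| := by
  have h : Complex.exp (x * Complex.I) - Complex.exp (y * Complex.I) =
      Complex.exp (y * Complex.I) * (Complex.exp (Complex.I * ((x - y : ℝ) : ℂ)) - 1) := by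
    rw [mul_sub, ← Complex.exp_add, mul_one]
    congr 2
    push_cast
    ring
  rw [h, norm_mul, Complex.norm_exp_ofReal_mul_I, one_mul]
  exact Real.norm_exp_I_mul_ofReal_sub_one_le

/-- every direction is a real multiple of `e ^ (i π φ)` -/
theorem LinL.dir (v : ℂ) : ∃ φ ∈ Icc (0:ℝ) 1, ∃ c : ℝ,
    v = c * Complex.exp ((Real.pi * φ : ℝ) * Complex.I) := by
  have hpi := Real.pi_pos
  have h1 := Complex.norm_mul_exp_arg_mul_I v
  have h2 := Complex.neg_pi_lt_arg v
  have h3 := Complex.arg_le_pi v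
  rcases le_total 0 v.arg with h | h
  · refine ⟨v.arg / Real.pi, ⟨by positivity, by rw [div_le_one hpi]; exact h3⟩, ‖v‖, ?_⟩
    rw [mul_div_cancel₀ _ hpi.ne', h1]
  · refine ⟨v.arg / Real.pi + 1, ⟨?_, ?_⟩, -‖v‖, ?_⟩
    · have : -1 ≤ v.arg / Real.pi := by
        rw [le_div_iff₀ hpi]
        linarith
      linarith
    · have : v.arg / Real.pi ≤ 0 := div_nonpos_of_nonpos_of_nonneg h hpi.le
      linarith
    · have h4 : ((Real.pi * (v.arg / Real.pi + 1) : ℝ) : ℂ) * Complex.I =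
          v.arg * Complex.I + Real.pi * Complex.I := by
        have : Real.pi * (v.arg / Real.pi + 1) = v.arg + Real.pi := by field_simp
        rw [this]
        push_cast
        ring
      rw [h4, Complex.exp_add, Complex.exp_pi_mul_I]
      push_cast
      rw [mul_neg_one, neg_mul_neg, h1]

/-- the point with coordinates in the square -/
noncomputable def LinL.bp (R x y : ℝ) : ℂ := ⟨R * (2 * x - 1), R * (2 * y - 1)⟩

theorem LinL.bp_dist {R : ℝ} (hR : 0 < R) (x y x' y' : ℝ) :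
    ‖bp R x y - bp R x' y'‖ ≤ 2 * R * |x - x'| + 2 * R * |y - y'| := by
  refine (Complex.norm_le_abs_re_add_abs_im _).trans ?_
  have h1 : (bp R x y - bp R x' y').re = 2 * R * (x - x') := by
    simp only [bp, Complex.sub_re]
    ring
  have h2 : (bp R x y - bp R x' y').im = 2 * R * (y - y') := by
    simp only [bp, Complex.sub_im]
    ring
  rw [h1, h2, abs_mul (2 * R) (x - x'), abs_mul (2 * R) (y - y'),
    abs_of_pos (by positivity : 0 < 2 * R)]

theorem LinL.bp_ex {R : ℝ} (hR : 0 < R) {p : ℂ} (hp : ‖p‖ ≤ R) :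
    ∃ x ∈ Icc (0:ℝ) 1, ∃ y ∈ Icc (0:ℝ) 1, bp R x y = p := by
  have h1 := abs_le.1 ((Complex.abs_re_le_norm p).trans hp)
  have h2 := abs_le.1 ((Complex.abs_im_le_norm p).trans hp)
  have key : ∀ q : ℝ, -R ≤ q → q ≤ R → (q / R + 1) / 2 ∈ Icc (0:ℝ) 1 := by
    intro q h3 h4
    have h5 : -1 ≤ q / R := by
      rw [le_div_iff₀ hR]
      linarith
    have h6 : q / R ≤ 1 := by
      rw [div_le_one hR]
      exact h4
    constructor <;> linarith
  refine ⟨_, key p.re h1.1 h1.2, _, key p.im h2.1 h2.2, ?_⟩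
  apply Complex.ext
  · simp only [bp]
    field_simp
    ring
  · simp only [bp]
    field_simp
    ring

theorem lin : S_LIN := by
  intro hfam n
  obtain ⟨R, hR⟩ : ∃ R : ℝ, R = (n : ℝ) + 1 := ⟨_, rfl⟩
  have hR1 : 1 ≤ R := by
    rw [hR]
    have : (0:ℝ) ≤ n := Nat.cast_nonneg n
    linarith
  have hR0 : 0 < R := by linarith
  have hpi := Real.pi_pos
  have hpi4 := Real.pi_lt_four
  obtain ⟨F, hF⟩ : ∃ F : (Fin 3 → ℝ) → ℝ → ℂ, F = fun θ s => LinL.bp R (θ 0) (θ 1) +
      ((2 * R * (2 * s - 1) : ℝ) : ℂ) * Complex.exp ((Real.pi * θ 2 : ℝ) * Complex.I) := ⟨_, rfl⟩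
  have hE := hfam 3 (12 * R) F (by positivity) (fun θ _ θ' _ s hs => by
    rw [hF]
    simp only
    rw [dist_eq_norm]
    have h0 := dist_le_pi_dist θ θ' 0
    have h1 := dist_le_pi_dist θ θ' 1
    have h2 := dist_le_pi_dist θ θ' 2
    rw [Real.dist_eq] at h0 h1 h2
    have h3 := LinL.bp_dist hR0 (θ 0) (θ 1) (θ' 0) (θ' 1)
    have h4 := LinL.exp_sub_le (Real.pi * θ 2) (Real.pi * θ' 2)
    have h5 : |Real.pi * θ 2 - Real.pi * θ' 2| = Real.pi * |θ 2 - θ' 2| := by
      rw [← mul_sub, abs_mul, abs_of_pos hpi]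
    rw [h5] at h4
    have h6 : ‖((2 * R * (2 * s - 1) : ℝ) : ℂ)‖ ≤ 2 * R := by
      rw [Complex.norm_real, Real.norm_eq_abs, abs_mul, abs_of_pos (by positivity : 0 < 2 * R)]
      have : |2 * s - 1| ≤ 1 := by
        rw [abs_le]
        constructor <;> linarith [hs.1, hs.2]
      have h7 : 0 ≤ 2 * R := by positivity
      nlinarith
    have h7 : ∀ A B c x y : ℂ, A + c * x - (B + c * y) = (A - B) + c * (x - y) := by
      intros; ring
    rw [h7]
    refine (norm_add_le _ _).trans ?_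
    rw [norm_mul]
    have h8 : ‖((2 * R * (2 * s - 1) : ℝ) : ℂ)‖ *
        ‖Complex.exp ((Real.pi * θ 2 : ℝ) * Complex.I) -
          Complex.exp ((Real.pi * θ' 2 : ℝ) * Complex.I)‖ ≤
        (2 * R) * (Real.pi * |θ 2 - θ' 2|) :=
      mul_le_mul h6 h4 (norm_nonneg _) (by positivity)
    have h9 : (2 * R) * (Real.pi * |θ 2 - θ' 2|) ≤ (2 * R) * (4 * dist θ θ') := by
      refine mul_le_mul_of_nonneg_left ?_ (by positivity)
      exact mul_le_mul hpi4.le h2 (abs_nonneg _) (by norm_num)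
    have h10 : 2 * R * |θ 0 - θ' 0| ≤ 2 * R * dist θ θ' :=
      mul_le_mul_of_nonneg_left h0 (by positivity)
    have h11 : 2 * R * |θ 1 - θ' 1| ≤ 2 * R * dist θ θ' :=
      mul_le_mul_of_nonneg_left h1 (by positivity)
    linarith) (fun θ _ s _ s' _ => by
    rw [hF]
    simp only
    have h1 : dist (LinL.bp R (θ 0) (θ 1) +
        ((2 * R * (2 * s - 1) : ℝ) : ℂ) * Complex.exp ((Real.pi * θ 2 : ℝ) * Complex.I))
        (LinL.bp R (θ 0) (θ 1) +
        ((2 * R * (2 * s' - 1) : ℝ) : ℂ) * Complex.exp ((Real.pi * θ 2 : ℝ) * Complex.I)) =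
        4 * R * dist s s' := by
      rw [dist_add_left, dist_eq_norm, ← sub_mul, norm_mul, Complex.norm_exp_ofReal_mul_I, mul_one,
        ← Complex.ofReal_sub, Complex.norm_real, Real.norm_eq_abs, Real.dist_eq]
      have : 2 * R * (2 * s - 1) - 2 * R * (2 * s' - 1) = 4 * R * (s - s') := by ring
      rw [this, abs_mul, abs_of_pos (by positivity : 0 < 4 * R)]
    rw [h1]
    have h2 : 0 ≤ dist s s' := dist_nonneg
    have h3 : 1 ≤ R * R := by nlinarith
    constructor
    · have : dist s s' * 1 ≤ dist s s' * (R * R) := mul_le_mul_of_nonneg_left h3 h2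
      nlinarith
    · nlinarith)
  refine ⟨_, hE, fun a v hv => ?_⟩
  by_cases hne : ({z : ℂ | ∃ t : ℝ, z = a + t * v} ∩ closedBall 0 ((n : ℝ) + 1)).Nonempty
  · obtain ⟨p, ⟨t0, hp⟩, hpR⟩ := hne
    obtain ⟨φ, hφ, c, hc⟩ := LinL.dir v
    obtain ⟨x, hx, y, hy, hxy⟩ := LinL.bp_ex hR0 (p := p) (by rw [hR]; simpa using hpR)
    refine ⟨_, ⟨![x, y, φ], ?_, rfl⟩, ?_⟩
    · constructor
      · intro i
        fin_cases i
        · exact hx.1
        · exact hy.1
        · exact hφ.1
      · intro i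
        fin_cases i
        · exact hx.2
        · exact hy.2
        · exact hφ.2
    · rintro z ⟨⟨t, hz⟩, hzR⟩
      obtain ⟨τ, hτ⟩ : ∃ τ : ℝ, τ = (t - t0) * c := ⟨_, rfl⟩
      have h1 : z - p = (τ : ℂ) * Complex.exp ((Real.pi * φ : ℝ) * Complex.I) := by
        rw [hz, hp, hτ, hc]
        push_cast
        ring
      have h2 : |τ| ≤ 2 * R := by
        have h3 : ‖z - p‖ = |τ| := by
          rw [h1, norm_mul, Complex.norm_exp_ofReal_mul_I, mul_one, Complex.norm_real,
            Real.norm_eq_abs]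
        rw [← h3]
        have h4 : ‖z‖ ≤ R := by rw [hR]; simpa using hzR
        have h5 : ‖p‖ ≤ R := by rw [hR]; simpa using hpR
        have := norm_sub_le z p
        linarith
      have h3 := abs_le.1 h2
      refine ⟨(τ / (2 * R) + 1) / 2, ⟨?_, ?_⟩, ?_⟩
      · have : -1 ≤ τ / (2 * R) := by
          rw [le_div_iff₀ (by positivity)]
          linarith
        linarith
      · have : τ / (2 * R) ≤ 1 := by
          rw [div_le_one (by positivity)]
          exact h3.2
        linarith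
      · rw [hF]
        simp only [Matrix.cons_val_zero, Matrix.cons_val_one, Matrix.cons_val]
        have h4 : 2 * R * (2 * ((τ / (2 * R) + 1) / 2) - 1) = τ := by
          field_simp
          ring
        rw [h4, ← h1, hxy]
        ring
  · refine ⟨_, ⟨0, ⟨le_rfl, by intro i; simp⟩, rfl⟩, ?_⟩
    rw [Set.not_nonempty_iff_eq_empty.1 hne]
    exact Set.empty_subset _

end Pool.Agent.Helper20K9.UL
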