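import Pool.Agent.Helper20K9.UL.Stm

/-!
Project UL: [NN] choice of separated radii, [TB] the bound for all tuples.
-/

set_option autoImplicit false

namespace Pool.Agent.Helper20K9.UL

open MeasureTheory Filter Topology Metric Set
open scoped ENNReal NNReal

namespace NNL

/-- The step of the induction. -/
theorem step {M s1 : ℝ} (hM : 0 < M) (hs1 : 0 < s1) (m : ℕ) {x : ℕ → ℂ} {r : ℝ}
    (hr : 0 < r) (hr1 : r ≤ 1) (hd : ∀ i < m + 1, ∀ j < m + 1, dist (x i) (x j) ≤ M)
    {s : Finset ℕ} {ρ : ℕ → ℝ} (hne : s.Nonempty) (hs : s ⊆ Finset.range m)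
    (hρ : ∀ i ∈ s, 0 < ρ i ∧ ρ i ≤ s1)
    (hsep : ∀ i ∈ s, ∀ j ∈ s, i ≠ j → ρ i + ρ j ≤ dist (x i) (x j)) :
    ∃ (s' : Finset ℕ) (ρ' : ℕ → ℝ), s'.Nonempty ∧ s' ⊆ Finset.range (m + 1) ∧
      (∀ i ∈ s', 0 < ρ' i ∧ ρ' i ≤ s1) ∧
      (∀ i ∈ s', ∀ j ∈ s', i ≠ j → ρ' i + ρ' j ≤ dist (x i) (x j)) ∧
      ∏ i ∈ s', (r / ρ' i) ^ (1/4 : ℝ) ≤
        ((2 : ℝ) ^ m * ((M / s1 + 2) * (M + 2 * s1)) ^ (1/4 : ℝ) + 2) *
        (∏ i ∈ s, (r / ρ i) ^ (1/4 : ℝ)) * (r ^ (1/4 : ℝ) *
          ∑ j ∈ Finset.range m, (max (dist (x m) (x j)) r) ^ (-(1/2) : ℝ)) := by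
  obtain ⟨j0, hj0, hmin⟩ := Finset.exists_min_image s (fun j => dist (x m) (x j)) hne
  have hj0m : j0 < m := Finset.mem_range.1 (hs hj0)
  have hP : 0 < ∏ i ∈ s, (r / ρ i) ^ (1/4 : ℝ) := by
    apply Finset.prod_pos
    intro i hi
    have := (hρ i hi).1
    positivity
  have hK : 0 < ((M / s1 + 2) * (M + 2 * s1)) ^ (1/4 : ℝ) := by positivity
  set d := dist (x m) (x j0) with hdd
  have hdM : d ≤ M := hd m (by omega) j0 (by omega)
  have hSig : (max d r) ^ (-(1/2) : ℝ) ≤
      ∑ j ∈ Finset.range m, (max (dist (x m) (x j)) r) ^ (-(1/2) : ℝ) :=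
    Finset.single_le_sum (f := fun j => (max (dist (x m) (x j)) r) ^ (-(1/2) : ℝ))
      (fun j _ => Real.rpow_nonneg (le_trans hr.le (le_max_right _ _)) _)
      (Finset.mem_range.2 hj0m)
  rcases le_or_gt d (2 * r) with hcase | hcase
  · refine ⟨s, ρ, hne, hs.trans (Finset.range_subset_range.2 (Nat.le_succ m)), hρ, hsep, ?_⟩
    have h1 : (2 * r) ^ (-(1/2) : ℝ) ≤ (max d r) ^ (-(1/2) : ℝ) := by
      apply Real.rpow_le_rpow_of_nonpos (lt_of_lt_of_le hr (le_max_right _ _)) _ (by norm_num)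
      exact max_le hcase (by linarith)
    have h2 : 1 ≤ 2 * (r ^ (1/4 : ℝ) * (2 * r) ^ (-(1/2) : ℝ)) := by
      have e1 : (1 : ℝ) ≤ r ^ (-(1/4) : ℝ) :=
        Real.one_le_rpow_of_pos_of_le_one_of_nonpos hr hr1 (by norm_num)
      have e2 : (1/2 : ℝ) ≤ 2 ^ (-(1/2) : ℝ) := by
        calc (1/2 : ℝ) = 2 ^ (-1 : ℝ) := by rw [Real.rpow_neg_one]; norm_num
          _ ≤ _ := Real.rpow_le_rpow_of_exponent_le (by norm_num) (by norm_num)
      have e3 : r ^ (1/4 : ℝ) * (2 * r) ^ (-(1/2) : ℝ) = 2 ^ (-(1/2) : ℝ) * r ^ (-(1/4) : ℝ) := by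
        rw [Real.mul_rpow (by norm_num) hr.le]
        rw [mul_left_comm, ← Real.rpow_add hr]
        norm_num
      rw [e3]
      nlinarith
    have h3 : 1 ≤ 2 * (r ^ (1/4 : ℝ) *
        ∑ j ∈ Finset.range m, (max (dist (x m) (x j)) r) ^ (-(1/2) : ℝ)) := by
      refine le_trans h2 ?_
      have := mul_le_mul_of_nonneg_left (h1.trans hSig) (Real.rpow_nonneg hr.le (1/4 : ℝ))
      linarith
    set Z := r ^ (1/4 : ℝ) *
        ∑ j ∈ Finset.range m, (max (dist (x m) (x j)) r) ^ (-(1/2) : ℝ) with hZ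
    have h4 : 0 ≤ (2 : ℝ) ^ m * ((M / s1 + 2) * (M + 2 * s1)) ^ (1/4 : ℝ) := by positivity
    have h5 : 0 ≤ Z := by nlinarith
    calc ∏ i ∈ s, (r / ρ i) ^ (1/4 : ℝ) = (∏ i ∈ s, (r / ρ i) ^ (1/4 : ℝ)) * 1 := by ring
      _ ≤ (∏ i ∈ s, (r / ρ i) ^ (1/4 : ℝ)) * (2 * Z) := mul_le_mul_of_nonneg_left h3 hP.le
      _ ≤ _ := by
        have := mul_nonneg (mul_nonneg h4 hP.le) h5
        linarith
  · have hd0 : 0 < d := by linarith
    have hms : m ∉ s := fun h => absurd (Finset.mem_range.1 (hs h)) (lt_irrefl m)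
    let ρ' : ℕ → ℝ := fun i => if i = m then min s1 (d / 2) else
      if i = j0 then min (ρ j0) (d / 2) else ρ i / 4
    have hρm : ρ' m = min s1 (d / 2) := by simp [ρ']
    have hρ0 : ρ' j0 = min (ρ j0) (d / 2) := by simp [ρ', hj0m.ne]
    have hρi : ∀ i ∈ s, i ≠ j0 → ρ' i = ρ i / 4 := by
      intro i hi hij
      have : i ≠ m := fun h => hms (h ▸ hi)
      simp [ρ', this, hij]
    have hle : ∀ i ∈ s, ρ' i ≤ ρ i := by
      intro i hi
      by_cases hij : i = j0
      · rw [hij, hρ0]; exact min_le_left _ _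
      · rw [hρi i hi hij]; linarith [(hρ i hi).1]
    have hpos : ∀ i ∈ s, 0 < ρ' i := by
      intro i hi
      by_cases hij : i = j0
      · rw [hij, hρ0]; exact lt_min (hρ j0 hj0).1 (by linarith)
      · rw [hρi i hi hij]; linarith [(hρ i hi).1]
    have hsm : ∀ i ∈ s, ρ' i + ρ' m ≤ dist (x i) (x m) := by
      intro i hi
      have hmi : d ≤ dist (x m) (x i) := hmin i hi
      rw [dist_comm (x i) (x m)]
      have hm2 : ρ' m ≤ d / 2 := by rw [hρm]; exact min_le_right _ _
      by_cases hij : i = j0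
      · subst hij
        have : ρ' i ≤ d / 2 := by rw [hρ0]; exact min_le_right _ _
        linarith
      · rw [hρi i hi hij]
        have h1 := hsep i hi j0 hj0 hij
        have h2 := dist_triangle (x i) (x m) (x j0)
        rw [dist_comm (x i) (x m)] at h2
        have h3 := (hρ j0 hj0).1
        linarith
    refine ⟨insert m s, ρ', Finset.insert_nonempty _ _, ?_, ?_, ?_, ?_⟩
    · intro i hi
      rcases Finset.mem_insert.1 hi with h | h
      · rw [h]; exact Finset.mem_range.2 (Nat.lt_succ_self m)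
      · have := Finset.mem_range.1 (hs h)
        exact Finset.mem_range.2 (by omega)
    · intro i hi
      rcases Finset.mem_insert.1 hi with h | h
      · rw [h, hρm]; exact ⟨lt_min hs1 (by linarith), min_le_left _ _⟩
      · exact ⟨hpos i h, (hle i h).trans (hρ i h).2⟩
    · intro i hi j hj hij
      rcases Finset.mem_insert.1 hi with h | h
      · rcases Finset.mem_insert.1 hj with h' | h'
        · exact absurd (h.trans h'.symm) hij
        · subst h
          rw [add_comm, dist_comm]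
          exact hsm j h'
      · rcases Finset.mem_insert.1 hj with h' | h'
        · subst h'
          exact hsm i h
        · have := hsep i h j h' hij
          linarith [hle i h, hle j h']
    · rw [Finset.prod_insert hms, ← Finset.mul_prod_erase s _ hj0,
        ← Finset.mul_prod_erase s (fun i => (r / ρ i) ^ (1/4 : ℝ)) hj0]
      -- the new point
      have hA : (r / ρ' m) ^ (1/4 : ℝ) ≤ (r * (M / s1 + 2) / d) ^ (1/4 : ℝ) := by
        apply Real.rpow_le_rpow _ _ (by norm_num)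
        · rw [hρm]
          have : 0 < min s1 (d / 2) := lt_min hs1 (by linarith)
          positivity
        · rw [hρm, mul_div_assoc]
          rw [div_eq_mul_inv]
          apply mul_le_mul_of_nonneg_left _ hr.le
          rw [inv_le_comm₀ (lt_min hs1 (by linarith)) (by positivity), inv_div]
          rw [le_min_iff]
          constructor
          · rw [div_le_iff₀ (by positivity)]
            have : s1 * (M / s1 + 2) = M + 2 * s1 := by field_simp
            linarith
          · rw [div_le_div_iff₀ (by positivity) (by norm_num)]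
            have : 0 ≤ M / s1 := by positivity
            nlinarith
      have hρj0 := hρ j0 hj0
      have hB : (r / ρ' j0) ^ (1/4 : ℝ) ≤ ((M + 2 * s1) / d) ^ (1/4 : ℝ) *
          (r / ρ j0) ^ (1/4 : ℝ) := by
        rw [← Real.mul_rpow (by positivity) (by have := hρj0.1; positivity)]
        apply Real.rpow_le_rpow _ _ (by norm_num)
        · have := hpos j0 hj0
          positivity
        · rw [hρ0]
          have h0 := hρj0.1
          have hmn : 0 < min (ρ j0) (d / 2) := lt_min h0 (by linarith)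
          rw [div_mul_div_comm, div_le_div_iff₀ hmn (by positivity)]
          have h7 : d * ρ j0 ≤ (M + 2 * s1) * min (ρ j0) (d / 2) := by
            rcases min_choice (ρ j0) (d / 2) with h | h
            · rw [h]
              nlinarith
            · rw [h]
              nlinarith [hρj0.2]
          nlinarith
      have hC : ∏ i ∈ s.erase j0, (r / ρ' i) ^ (1/4 : ℝ) ≤
          2 ^ m * ∏ i ∈ s.erase j0, (r / ρ i) ^ (1/4 : ℝ) := by
        have hcard : (s.erase j0).card ≤ m := by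
          refine (Finset.card_le_card (Finset.erase_subset _ _)).trans ?_
          have := Finset.card_le_card hs
          rwa [Finset.card_range] at this
        have hpp : 0 ≤ ∏ i ∈ s.erase j0, (r / ρ i) ^ (1/4 : ℝ) := by
          apply Finset.prod_nonneg
          intro i hi
          have := (hρ i (Finset.mem_of_mem_erase hi)).1
          positivity
        calc ∏ i ∈ s.erase j0, (r / ρ' i) ^ (1/4 : ℝ)
            ≤ ∏ i ∈ s.erase j0, 2 * (r / ρ i) ^ (1/4 : ℝ) := by
              apply Finset.prod_le_prod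
              · intro i hi
                have := hpos i (Finset.mem_of_mem_erase hi)
                positivity
              · intro i hi
                have hi' := Finset.mem_of_mem_erase hi
                have hp := (hρ i hi').1
                rw [hρi i hi' (Finset.ne_of_mem_erase hi)]
                have : r / (ρ i / 4) = 4 * (r / ρ i) := by field_simp
                rw [this, Real.mul_rpow (by norm_num) (by positivity)]
                apply mul_le_mul_of_nonneg_right _ (by positivity)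
                calc (4 : ℝ) ^ (1/4 : ℝ) ≤ 4 ^ (1/2 : ℝ) :=
                      Real.rpow_le_rpow_of_exponent_le (by norm_num) (by norm_num)
                  _ = 2 := by
                    rw [show (4 : ℝ) = 2 ^ (2 : ℝ) by norm_num, ← Real.rpow_mul (by norm_num)]
                    norm_num
          _ = 2 ^ (s.erase j0).card * ∏ i ∈ s.erase j0, (r / ρ i) ^ (1/4 : ℝ) := by
              rw [Finset.prod_mul_distrib, Finset.prod_const]
          _ ≤ _ := by
              apply mul_le_mul_of_nonneg_right _ hpp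
              exact pow_le_pow_right₀ (by norm_num) hcard
      have hpe : 0 ≤ ∏ i ∈ s.erase j0, (r / ρ' i) ^ (1/4 : ℝ) := by
        apply Finset.prod_nonneg
        intro i hi
        have := hpos i (Finset.mem_of_mem_erase hi)
        positivity
      have hpe' : 0 ≤ ∏ i ∈ s.erase j0, (r / ρ i) ^ (1/4 : ℝ) := by
        apply Finset.prod_nonneg
        intro i hi
        have := (hρ i (Finset.mem_of_mem_erase hi)).1
        positivity
      have hj00 : 0 ≤ (r / ρ j0) ^ (1/4 : ℝ) := by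
        have := hρj0.1
        positivity
      have hDd : (r * (M / s1 + 2) / d) ^ (1/4 : ℝ) * ((M + 2 * s1) / d) ^ (1/4 : ℝ) =
          ((M / s1 + 2) * (M + 2 * s1)) ^ (1/4 : ℝ) * (r ^ (1/4 : ℝ) * d ^ (-(1/2) : ℝ)) := by
        rw [← Real.mul_rpow (by positivity) (by positivity)]
        have e1 : r * (M / s1 + 2) / d * ((M + 2 * s1) / d) =
            ((M / s1 + 2) * (M + 2 * s1)) * (r * (d ^ (2 : ℝ))⁻¹) := by
          rw [Real.rpow_two]
          field_simp
        rw [e1, Real.mul_rpow (by positivity) (by positivity),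
          Real.mul_rpow hr.le (by positivity), ← Real.rpow_neg hd0.le,
          ← Real.rpow_mul hd0.le]
        norm_num
      have hdr : max d r = d := max_eq_left (by linarith)
      rw [hdr] at hSig
      have hfin : (r / ρ' m) ^ (1/4 : ℝ) * ((r / ρ' j0) ^ (1/4 : ℝ) *
          ∏ i ∈ s.erase j0, (r / ρ' i) ^ (1/4 : ℝ)) ≤
          (2 ^ m * ((M / s1 + 2) * (M + 2 * s1)) ^ (1/4 : ℝ)) *
          ((r / ρ j0) ^ (1/4 : ℝ) * ∏ i ∈ s.erase j0, (r / ρ i) ^ (1/4 : ℝ)) *
          (r ^ (1/4 : ℝ) * d ^ (-(1/2) : ℝ)) := by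
        calc (r / ρ' m) ^ (1/4 : ℝ) * ((r / ρ' j0) ^ (1/4 : ℝ) *
            ∏ i ∈ s.erase j0, (r / ρ' i) ^ (1/4 : ℝ))
            ≤ (r * (M / s1 + 2) / d) ^ (1/4 : ℝ) * ((((M + 2 * s1) / d) ^ (1/4 : ℝ) *
              (r / ρ j0) ^ (1/4 : ℝ)) * (2 ^ m * ∏ i ∈ s.erase j0, (r / ρ i) ^ (1/4 : ℝ))) := by
              apply mul_le_mul hA _ _ (by positivity)
              · apply mul_le_mul hB hC hpe (by positivity)
              · apply mul_nonneg _ hpe
                have := hpos j0 hj0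
                positivity
          _ = ((r * (M / s1 + 2) / d) ^ (1/4 : ℝ) * ((M + 2 * s1) / d) ^ (1/4 : ℝ)) *
              (2 ^ m * ((r / ρ j0) ^ (1/4 : ℝ) *
                ∏ i ∈ s.erase j0, (r / ρ i) ^ (1/4 : ℝ))) := by ring
          _ = _ := by rw [hDd]; ring
      refine hfin.trans ?_
      have hQ : 0 ≤ (r / ρ j0) ^ (1/4 : ℝ) * ∏ i ∈ s.erase j0, (r / ρ i) ^ (1/4 : ℝ) :=
        mul_nonneg hj00 hpe'
      have hS0 : r ^ (1/4 : ℝ) * d ^ (-(1/2) : ℝ) ≤ r ^ (1/4 : ℝ) *
          ∑ j ∈ Finset.range m, (max (dist (x m) (x j)) r) ^ (-(1/2) : ℝ) :=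
        mul_le_mul_of_nonneg_left hSig (by positivity)
      apply mul_le_mul _ hS0 (by positivity) (by positivity)
      apply mul_le_mul_of_nonneg_right _ hQ
      linarith

theorem main {M s1 : ℝ} (hM : 0 < M) (hs1 : 0 < s1) (m : ℕ) : ∃ C : ℝ, 0 < C ∧
    ∀ (x : ℕ → ℂ) (r : ℝ), 0 < r → r ≤ 1 →
    (∀ i < m + 1, ∀ j < m + 1, dist (x i) (x j) ≤ M) →
    ∃ (s : Finset ℕ) (ρ : ℕ → ℝ), s.Nonempty ∧ s ⊆ Finset.range (m + 1) ∧
      (∀ i ∈ s, 0 < ρ i ∧ ρ i ≤ s1) ∧
      (∀ i ∈ s, ∀ j ∈ s, i ≠ j → ρ i + ρ j ≤ dist (x i) (x j)) ∧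
      ∏ i ∈ s, (r / ρ i) ^ (1/4 : ℝ) ≤ C * (r ^ (1/4 : ℝ)) ^ (m + 1) *
        ∏ l ∈ Finset.Ico 1 (m + 1), ∑ j ∈ Finset.range l,
          (max (dist (x l) (x j)) r) ^ (-(1/2) : ℝ) := by
  induction m with
  | zero =>
    refine ⟨(1 / s1) ^ (1/4 : ℝ), by positivity, ?_⟩
    intro x r hr hr1 _
    refine ⟨{0}, fun _ => s1, Finset.singleton_nonempty _, by simp, ?_, ?_, ?_⟩
    · intro i _; exact ⟨hs1, le_rfl⟩
    · intro i hi j hj hij
      rw [Finset.mem_singleton] at hi hj
      exact absurd (hi.trans hj.symm) hij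
    · simp only [Finset.prod_singleton, zero_add, pow_one, Finset.Ico_self, Finset.prod_empty,
        mul_one]
      rw [← Real.mul_rpow (by positivity) hr.le]
      apply le_of_eq
      congr 1
      field_simp
  | succ m ih =>
    obtain ⟨C, hC, hall⟩ := ih
    refine ⟨((2 : ℝ) ^ (m + 1) * ((M / s1 + 2) * (M + 2 * s1)) ^ (1/4 : ℝ) + 2) * C,
      by positivity, ?_⟩
    intro x r hr hr1 hd
    obtain ⟨s, ρ, hne, hs, hρ, hsep, hb⟩ := hall x r hr hr1
      (fun i hi j hj => hd i (by omega) j (by omega))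
    obtain ⟨s', ρ', hne', hs', hρ', hsep', hb'⟩ :=
      step hM hs1 (m + 1) hr hr1 hd hne hs hρ hsep
    refine ⟨s', ρ', hne', hs', hρ', hsep', hb'.trans ?_⟩
    rw [Finset.prod_Ico_succ_top (by omega : 1 ≤ m + 1), pow_succ (r ^ (1/4 : ℝ)) (m + 1)]
    have hSn : 0 ≤ r ^ (1/4 : ℝ) * ∑ j ∈ Finset.range (m + 1),
        (max (dist (x (m + 1)) (x j)) r) ^ (-(1/2) : ℝ) := by
      apply mul_nonneg (by positivity)
      apply Finset.sum_nonneg
      intro j _
      exact Real.rpow_nonneg (le_trans hr.le (le_max_right _ _)) _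
    have hk : 0 ≤ (2 : ℝ) ^ (m + 1) * ((M / s1 + 2) * (M + 2 * s1)) ^ (1/4 : ℝ) + 2 := by
      positivity
    have := mul_le_mul_of_nonneg_right (mul_le_mul_of_nonneg_left hb hk) hSn
    refine this.trans (le_of_eq ?_)
    ring

end NNL

theorem nn : S_NN := by
  intro M s1 hM hs1 m
  rcases m with _ | m
  · refine ⟨1, one_pos, ?_⟩
    intro x r _ _ _
    exact ⟨∅, fun _ => 1, by simp, by simp, by simp, by simp⟩
  · obtain ⟨C, hC, hall⟩ := NNL.main hM hs1 m
    refine ⟨C, hC, ?_⟩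
    intro x r hr hr1 hd
    obtain ⟨s, ρ, _, h1, h2, h3, h4⟩ := hall x r hr hr1 hd
    exact ⟨s, ρ, h1, h2, h3, h4⟩

theorem tb : S_NN → S_TB := by
  intro hNN Ω _ μ _ K A C r1 s1 hA hC hs1 hMP m
  obtain ⟨M0, hM0⟩ := Metric.isBounded_iff.1 hA
  obtain ⟨C1, hC1, hall⟩ := hNN (max M0 1) s1 (by positivity) hs1 m
  refine ⟨(max C 1) ^ m * C1, by positivity, ?_⟩
  intro x r hr hrr1 hr1 hx
  obtain ⟨s, ρ, hs, hρ, hsep, hb⟩ := hall x r hr hr1
    (fun i hi j hj => (hM0 (hx i hi) (hx j hj)).trans (le_max_left _ _))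
  have h1 : μ.real (⋂ i ∈ Finset.range m, Hit K (x i) r) ≤ μ.real (⋂ i ∈ s, Hit K (x i) r) := by
    apply measureReal_mono _ (measure_ne_top _ _)
    intro ω hω
    rw [Set.mem_iInter₂] at hω ⊢
    exact fun i hi => hω i (hs hi)
  have h2 := hMP s x ρ r hr hrr1 (fun i hi => hx i (Finset.mem_range.1 (hs hi))) hρ hsep
  rw [Finset.prod_mul_distrib, Finset.prod_const] at h2
  have hP : 0 ≤ ∏ i ∈ s, (r / ρ i) ^ (1/4 : ℝ) := by
    apply Finset.prod_nonneg
    intro i hi
    have := (hρ i hi).1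
    positivity
  have hc : s.card ≤ m := by
    have := Finset.card_le_card hs
    rwa [Finset.card_range] at this
  have h3 : C ^ s.card ≤ (max C 1) ^ m :=
    (pow_le_pow_left₀ hC.le (le_max_left C 1) _).trans
      (pow_le_pow_right₀ (le_max_right C 1) hc)
  calc μ.real (⋂ i ∈ Finset.range m, Hit K (x i) r)
      ≤ C ^ s.card * ∏ i ∈ s, (r / ρ i) ^ (1/4 : ℝ) := h1.trans h2
    _ ≤ (max C 1) ^ m * (C1 * (r ^ (1/4 : ℝ)) ^ m *
        ∏ l ∈ Finset.Ico 1 m, ∑ j ∈ Finset.range l, (max (dist (x l) (x j)) r) ^ (-(1/2) : ℝ)) :=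
      mul_le_mul h3 hb hP (by positivity)
    _ = _ := by ring

end Pool.Agent.Helper20K9.UL
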