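import Mathlib

/-!
Project UL: uniform bound for the intersections of the interface with all sets of a family of
polynomial entropy (all lines, all circles). Statements of the leaves, as propositions; nothing is
assumed. All leaves in this file depend on Mathlib only.
-/

set_option autoImplicit false

namespace Pool.Agent.Helper20K9.UL

open MeasureTheory Filter Topology Metric Set
open scoped ENNReal NNReal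

/-- The random set `K` meets the closed disc. -/
def Hit {Ω : Type*} (K : Ω → Set ℂ) (z : ℂ) (r : ℝ) : Set Ω := {ω | (K ω ∩ closedBall z r).Nonempty}

open Classical in
/-- The number of points `x` of `T` such that `K` meets the disc of radius `r` around `x`. -/
noncomputable def cnt {Ω : Type*} (K : Ω → Set ℂ) (T : Finset ℂ) (r : ℝ) (ω : Ω) : ℝ :=
  ((T.filter (fun x => ω ∈ Hit K x r)).card : ℝ)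

/-- Many-point bound: separated centres in `A`. -/
def MP {Ω : Type*} [MeasurableSpace Ω] (μ : Measure Ω) (K : Ω → Set ℂ) (A : Set ℂ)
    (C r1 s1 : ℝ) : Prop :=
  ∀ (s : Finset ℕ) (z : ℕ → ℂ) (ρ : ℕ → ℝ) (r : ℝ), 0 < r → r ≤ r1 → (∀ i ∈ s, z i ∈ A) →
    (∀ i ∈ s, 0 < ρ i ∧ ρ i ≤ s1) →
    (∀ i ∈ s, ∀ j ∈ s, i ≠ j → ρ i + ρ j ≤ dist (z i) (z j)) →
    μ.real (⋂ i ∈ s, Hit K (z i) r) ≤ ∏ i ∈ s, C * (r / ρ i) ^ (1/4 : ℝ)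

/-- [NN] choice of separated radii. -/
def S_NN : Prop := ∀ (M s1 : ℝ), 0 < M → 0 < s1 → ∀ m : ℕ, ∃ C : ℝ, 0 < C ∧
  ∀ (x : ℕ → ℂ) (r : ℝ), 0 < r → r ≤ 1 → (∀ i < m, ∀ j < m, dist (x i) (x j) ≤ M) →
    ∃ (s : Finset ℕ) (ρ : ℕ → ℝ), s ⊆ Finset.range m ∧ (∀ i ∈ s, 0 < ρ i ∧ ρ i ≤ s1) ∧
      (∀ i ∈ s, ∀ j ∈ s, i ≠ j → ρ i + ρ j ≤ dist (x i) (x j)) ∧
      ∏ i ∈ s, (r / ρ i) ^ (1/4 : ℝ) ≤ C * (r ^ (1/4 : ℝ)) ^ m *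
        ∏ l ∈ Finset.Ico 1 m, ∑ j ∈ Finset.range l, (max (dist (x l) (x j)) r) ^ (-(1/2) : ℝ)

/-- [TB] the bound for all tuples. -/
def S_TB : Prop := ∀ {Ω : Type} [MeasurableSpace Ω] (μ : Measure Ω) [IsProbabilityMeasure μ]
  (K : Ω → Set ℂ) (A : Set ℂ) (C r1 s1 : ℝ), Bornology.IsBounded A → 0 < C → 0 < s1 →
  MP μ K A C r1 s1 → ∀ m : ℕ, ∃ C' : ℝ, 0 < C' ∧ ∀ (x : ℕ → ℂ) (r : ℝ), 0 < r → r ≤ r1 → r ≤ 1 →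
    (∀ i < m, x i ∈ A) → μ.real (⋂ i ∈ Finset.range m, Hit K (x i) r) ≤
      C' * (r ^ (1/4 : ℝ)) ^ m *
        ∏ l ∈ Finset.Ico 1 m, ∑ j ∈ Finset.range l, (max (dist (x l) (x j)) r) ^ (-(1/2) : ℝ)

/-- [MO] moments and Markov's inequality. -/
def S_MO : Prop := ∀ {Ω : Type} [MeasurableSpace Ω] (μ : Measure Ω) [IsProbabilityMeasure μ]
  (K : Ω → Set ℂ), (∀ z r, MeasurableSet (Hit K z r)) → ∀ (m : ℕ), 1 ≤ m → ∀ (T : Finset ℂ)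
  (r C B L : ℝ), 0 < r → 0 ≤ C → 0 ≤ B → 0 < L →
  (∀ x : ℕ → ℂ, (∀ i < m, x i ∈ T) → μ.real (⋂ i ∈ Finset.range m, Hit K (x i) r) ≤
    C * ∏ l ∈ Finset.Ico 1 m, ∑ j ∈ Finset.range l, (max (dist (x l) (x j)) r) ^ (-(1/2) : ℝ)) →
  (∀ y ∈ T, ∑ x ∈ T, (max (dist x y) r) ^ (-(1/2) : ℝ) ≤ B) →
  L ^ m * μ.real {ω | L ≤ cnt K T r ω} ≤ C * T.card * (m * B) ^ (m - 1)

/-- [BC] Borel-Cantelli for families of polynomial size at the scales `2 ^ (-n)`. -/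
def S_BC : Prop := ∀ {Ω : Type} [MeasurableSpace Ω] (μ : Measure Ω) [IsProbabilityMeasure μ]
  (K : Ω → Set ℂ), (∀ z r, MeasurableSet (Hit K z r)) → ∀ (A : Set ℂ) (C r1 s1 : ℝ),
  Bornology.IsBounded A → 0 < C → 0 < r1 → 0 < s1 → MP μ K A C r1 s1 →
  ∀ (k : ℕ) (Q β ε : ℝ) (𝒯 : ℕ → Finset (Finset ℂ)), 0 < Q → 0 < ε → 0 ≤ β →
  (∀ n, ((𝒯 n).card : ℝ) ≤ Q * 2 ^ (k * n)) →
  (∀ n, ∀ T ∈ 𝒯 n, (∀ x ∈ T, x ∈ A) ∧ (T.card : ℝ) ≤ Q * (2 : ℝ) ^ (β * n) ∧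
    ∀ y ∈ T, ∑ x ∈ T, (max (dist x y) ((2 : ℝ) ^ (-(n : ℝ)))) ^ (-(1/2) : ℝ) ≤
      Q * (2 : ℝ) ^ (β * n)) →
  ∀ᵐ ω ∂μ, ∀ᶠ n : ℕ in atTop, ∀ T ∈ 𝒯 n,
    cnt K T ((2 : ℝ) ^ (-(n : ℝ))) ω ≤ (2 : ℝ) ^ ((β - 1/4 + ε) * n)

/-- [SH] sums over regular sets. -/
def S_SH : Prop := ∀ (Q β M : ℝ), 0 < Q → 1/2 < β → 0 < M → ∃ C : ℝ, 0 < C ∧
  ∀ (T : Finset ℂ) (n : ℕ), (∀ x ∈ T, ∀ y ∈ T, dist x y ≤ M) →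
    (∀ (x : ℂ) (ρ : ℝ), (2 : ℝ) ^ (-(n : ℝ)) ≤ ρ →
      ((T : Set ℂ) ∩ closedBall x ρ).ncard ≤ Q * (ρ * 2 ^ (n : ℝ)) ^ β) →
    (T.card : ℝ) ≤ C * (2 : ℝ) ^ (β * n) ∧
    ∀ y ∈ T, ∑ x ∈ T, (max (dist x y) ((2 : ℝ) ^ (-(n : ℝ)))) ^ (-(1/2) : ℝ) ≤
      C * (2 : ℝ) ^ (β * n)

/-- [DET] upper bound for the dimension from coverings. -/
def S_DET : Prop := ∀ (X : Set ℂ) (g Q : ℝ), 0 ≤ g → 0 < Q →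
  (∀ᶠ n : ℕ in atTop, ∃ J : Finset ℂ, (J.card : ℝ) ≤ Q * (2 : ℝ) ^ (g * n) ∧
    X ⊆ ⋃ x ∈ J, closedBall x ((2 : ℝ) ^ (-(n : ℝ)))) → dimH X ≤ ENNReal.ofReal g

/-- Families of sets of polynomial entropy and dimension `β`: for every `n` there are at most
`Q 2 ^ (k n)` finite sets `T` with at most `Q (2 ^ n ρ) ^ β` points in every disc of radius
`ρ ≥ 2 ^ (-n)`, such that every member of the family is contained in the `2 ^ (-n)`-neighbourhood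
of one of them. -/
def Ent (𝒮 : Set (Set ℂ)) (β : ℝ) : Prop :=
  ∃ (k : ℕ) (Q : ℝ), 0 < Q ∧ ∀ n : ℕ, ∃ 𝒯 : Finset (Finset ℂ), ((𝒯.card : ℝ) ≤ Q * 2 ^ (k * n)) ∧
    (∀ T ∈ 𝒯, ∀ (x : ℂ) (ρ : ℝ), (2 : ℝ) ^ (-(n : ℝ)) ≤ ρ →
      ((T : Set ℂ) ∩ closedBall x ρ).ncard ≤ Q * (ρ * 2 ^ (n : ℝ)) ^ β) ∧
    ∀ S ∈ 𝒮, ∃ T ∈ 𝒯, S ⊆ ⋃ x ∈ T, closedBall x ((2 : ℝ) ^ (-(n : ℝ)))

/-- [GEN] the uniform bound for a family of polynomial entropy. -/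
def S_GEN : Prop := ∀ {Ω : Type} [MeasurableSpace Ω] (μ : Measure Ω) [IsProbabilityMeasure μ]
  (K : Ω → Set ℂ), (∀ z r, MeasurableSet (Hit K z r)) → ∀ (D : Set ℂ), IsOpen D →
  Bornology.IsBounded D →
  (∀ A : Set ℂ, IsCompact A → A ⊆ D → ∃ C r1 s1 : ℝ, 0 < C ∧ 0 < r1 ∧ 0 < s1 ∧ MP μ K A C r1 s1) →
  ∀ (𝒮 : Set (Set ℂ)) (β : ℝ), 1/2 < β → Ent 𝒮 β →
  ∀ᵐ ω ∂μ, ∀ S ∈ 𝒮, dimH (K ω ∩ S ∩ D) ≤ ENNReal.ofReal (β - 1/4)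

/-- [FAM] Lipschitz families of bi-Lipschitz arcs. -/
def S_FAM : Prop := ∀ (k : ℕ) (M : ℝ) (F : (Fin k → ℝ) → ℝ → ℂ), 0 < M →
  (∀ θ ∈ Icc (0 : Fin k → ℝ) 1, ∀ θ' ∈ Icc (0 : Fin k → ℝ) 1, ∀ s ∈ Icc (0 : ℝ) 1,
    dist (F θ s) (F θ' s) ≤ M * dist θ θ') →
  (∀ θ ∈ Icc (0 : Fin k → ℝ) 1, ∀ s ∈ Icc (0 : ℝ) 1, ∀ s' ∈ Icc (0 : ℝ) 1,
    dist s s' ≤ M * dist (F θ s) (F θ s') ∧ dist (F θ s) (F θ s') ≤ M * dist s s') →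
  Ent {S | ∃ θ ∈ Icc (0 : Fin k → ℝ) 1, S = F θ '' Icc (0 : ℝ) 1} 1

/-- [LIN] the parts of the lines in the disc of radius `n + 1` around `0` are contained in the
members of a family of polynomial entropy. -/
def S_LIN : Prop := S_FAM → ∀ n : ℕ, ∃ 𝒮 : Set (Set ℂ), Ent 𝒮 1 ∧ ∀ a v : ℂ, v ≠ 0 → ∃ S ∈ 𝒮,
  {z : ℂ | ∃ t : ℝ, z = a + t * v} ∩ closedBall 0 (n + 1) ⊆ S

/-- [CIR] the circles with centres in the disc of radius `n + 1` and radii in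
`[1 / (n + 1), n + 1]` are unions of seven members of a family of polynomial entropy. -/
def S_CIR : Prop := S_FAM → ∀ n : ℕ, ∃ 𝒮 : Set (Set ℂ), Ent 𝒮 1 ∧
  ∀ (c : ℂ) (ρ : ℝ), ‖c‖ ≤ n + 1 → 1 / ((n : ℝ) + 1) ≤ ρ → ρ ≤ n + 1 →
    ∃ S : Fin 7 → Set ℂ, (∀ i, S i ∈ 𝒮) ∧ sphere c ρ ⊆ ⋃ i, S i

/-- [DLI] dimension and sigma-compactness of the part of a line in an open set. -/
def S_DLI : Prop := ∀ (D : Set ℂ) (a v : ℂ), IsOpen D → v ≠ 0 →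
  ({z : ℂ | ∃ t : ℝ, z = a + t * v} ∩ D).Nonempty →
  IsSigmaCompact ({z : ℂ | ∃ t : ℝ, z = a + t * v} ∩ D) ∧
    dimH ({z : ℂ | ∃ t : ℝ, z = a + t * v} ∩ D) = 1

end Pool.Agent.Helper20K9.UL
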