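import Pool.Agent.TH966.HD.TwoLim
import Pool.Agent.Helper20K9.UL.Stm

/-!
Project UL: the many-point bound for the limits of the exploration path.
-/

set_option autoImplicit false

namespace Pool.Agent.Helper20K9.UL

open H974 H973 H12S H934E H934F MeasureTheory TopologicalSpace Filter Topology
open Pool.Agent.TH966.HD (AB TA cv near_k nd_bounds box_sub)

theorem disj2 {v w : Vtx} {K : ℕ} (hK : nd v w = K) {a b : ℕ} (hab : a + b < K) :
    Disjoint (t3_B v a) (t3_B w b) := by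
  rw [Finset.disjoint_left]
  intro e h1 h2
  have h3 := (t3_edge_far h1).1.1
  have h4 := (t3_edge_far h2).1.1
  have := t3_nd hK
  omega

/-- independent boxes -/
theorem md_aux {C : ℝ} (hC : 0 < C) (hA : AB C) {ι : Type*} [DecidableEq ι] {S : Finset Edg}
    (s : Finset ι)
    (v : ι → Vtx) (ρ : ι → ℕ) {k : ℕ} (hk : 1 ≤ k)
    (h : ∀ i ∈ s, k ≤ ρ i ∧ t3_B (v i) (ρ i) ⊆ S)
    (hd : ∀ i ∈ s, ∀ j ∈ s, i ≠ j → Disjoint (t3_B (v i) (ρ i)) (t3_B (v j) (ρ j))) :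
    Q S (fun F => ∀ i ∈ s, t3_An (t3_B (v i) (ρ i)) (v i) k (ρ i) F) ≤
      ∏ i ∈ s, C * ((k : ℝ) / ρ i) ^ (1/4 : ℝ) := by
  induction s using Finset.induction_on with
  | empty =>
    simp only [Finset.prod_empty]
    exact Q_le_one _ _
  | insert a s ha ih =>
    have ih' := ih (fun i hi => h i (Finset.mem_insert_of_mem hi))
      (fun i hi j hj hij => hd i (Finset.mem_insert_of_mem hi) j (Finset.mem_insert_of_mem hj) hij)
    set Y : Finset Edg := s.biUnion (fun i => t3_B (v i) (ρ i)) with hY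
    have hYS : Y ⊆ S := by
      rw [hY, Finset.biUnion_subset]
      exact fun i hi => (h i (Finset.mem_insert_of_mem hi)).2
    have hXS := (h a (Finset.mem_insert_self a s)).2
    have hdis : Disjoint (t3_B (v a) (ρ a)) Y := by
      rw [hY, Finset.disjoint_biUnion_right]
      intro i hi
      apply hd a (Finset.mem_insert_self a s) i (Finset.mem_insert_of_mem hi)
      rintro rfl
      exact ha hi
    have e1 : Q S (fun F => ∀ i ∈ insert a s, t3_An (t3_B (v i) (ρ i)) (v i) k (ρ i) F) =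
        Q S (fun F => t3_An (t3_B (v a) (ρ a)) (v a) k (ρ a) F ∧
          ∀ i ∈ s, t3_An (t3_B (v i) (ρ i)) (v i) k (ρ i) F) := by
      apply Pr_congr
      intro F _
      rw [Finset.forall_mem_insert]
    have e2 : Q S (fun F => t3_An (t3_B (v a) (ρ a)) (v a) k (ρ a) F ∧
          ∀ i ∈ s, t3_An (t3_B (v i) (ρ i)) (v i) k (ρ i) F) =
        Q S (t3_An (t3_B (v a) (ρ a)) (v a) k (ρ a)) *
          Q S (fun F => ∀ i ∈ s, t3_An (t3_B (v i) (ρ i)) (v i) k (ρ i) F) := by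
      apply Pr_indep hXS hYS hdis (fun F _ => t3_loc _ _ _ _ F)
      intro F _
      refine forall₂_congr fun i hi => ?_
      exact t3_loc' (Finset.subset_biUnion_of_mem (fun i => t3_B (v i) (ρ i)) hi) _ _ _ _
    rw [e1, e2, Finset.prod_insert ha]
    have g1 := t3_pr hA hXS (v a) hk (h a (Finset.mem_insert_self a s)).1
    exact mul_le_mul g1 ih' (Q_nonneg _ _) (by positivity)

theorem md {C : ℝ} (hC : 0 < C) (hA : AB C) {ι : Type*} [DecidableEq ι] {S : Finset Edg}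
    (s : Finset ι)
    (v : ι → Vtx) (ρ : ι → ℕ) {k N : ℕ} (hk : 1 ≤ k)
    (h : ∀ i ∈ s, k ≤ ρ i ∧ ρ i ≤ N ∧ t3_B (v i) (ρ i) ⊆ S)
    (hd : ∀ i ∈ s, ∀ j ∈ s, i ≠ j → Disjoint (t3_B (v i) (ρ i)) (t3_B (v j) (ρ j))) :
    Q S (fun F => ∀ i ∈ s, TA S (v i) k N F) ≤ ∏ i ∈ s, C * ((k : ℝ) / ρ i) ^ (1/4 : ℝ) := by
  refine le_trans (Q_mono (fun F _ hF i hi => ?_)) (md_aux hC hA s v ρ hk
    (fun i hi => ⟨(h i hi).1, (h i hi).2.2⟩) hd)
  exact near_k (h i hi).2.1 (hF i hi)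

/-- mesh-level many-point bound -/
theorem meshm {C : ℝ} (hC : 0 < C) (hA : AB C) {s0 : ℝ} (R : Rect) (s : Finset ℕ)
    (z : ℕ → ℂ) (ρ : ℕ → ℝ) {r δ : ℝ} (hδ : 0 < δ) (hδr : δ ≤ r) (hr0 : 64 * r ≤ s0)
    (hb : ∀ i ∈ s, Metric.ball (z i) s0 ⊆ R.D) (hρ : ∀ i ∈ s, 0 < ρ i ∧ ρ i ≤ s0)
    (hsep : ∀ i ∈ s, ∀ j ∈ s, i ≠ j → ρ i + ρ j ≤ dist (z i) (z j)) :
    Q (R.edges δ) (fun F => ∀ i ∈ s, (R.path δ F ∩ Metric.ball (z i) r).Nonempty) ≤
      ∏ i ∈ s, (96 * C + 256) * (r / ρ i) ^ (1/4 : ℝ) := by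
  classical
  have hr : 0 < r := hδ.trans_le hδr
  have hs0 : 0 < s0 := by linarith
  set k : ℕ := ⌈r / δ⌉₊ + 4 with hk
  set N : ℕ := ⌊s0 / (4 * δ)⌋₊ with hN
  set ρd : ℕ → ℕ := fun i => ⌊ρ i / (8 * δ)⌋₊ with hρd
  set s' : Finset ℕ := s.filter (fun i => 256 * r ≤ ρ i) with hs'
  have hq1 : 1 ≤ r / δ := by rw [le_div_iff₀ hδ]; linarith
  have hk6 : (k : ℝ) ≤ 6 * (r / δ) := by
    have h3 : (⌈r / δ⌉₊ : ℝ) < r / δ + 1 := Nat.ceil_lt_add_one (by positivity)
    rw [hk]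
    push_cast
    linarith
  have hk1 : 1 ≤ k := by omega
  have hρd1 : ∀ i, 0 < ρ i → (ρd i : ℝ) ≤ ρ i / (8 * δ) := fun i hi => Nat.floor_le (by positivity)
  have hρd2 : ∀ i, 256 * r ≤ ρ i → ρ i / (16 * δ) ≤ ρd i ∧ 16 * (r / δ) ≤ ρ i / (16 * δ) := by
    intro i hi
    have h1 : ρ i / (8 * δ) < ρd i + 1 := Nat.lt_floor_add_one _
    have h2 : 16 * (r / δ) ≤ ρ i / (16 * δ) := by
      rw [← mul_div_assoc, div_le_div_iff₀ hδ (by positivity)]
      nlinarith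
    have h3 : ρ i / (8 * δ) = ρ i / (16 * δ) + ρ i / (16 * δ) := by field_simp <;> ring
    exact ⟨by linarith, h2⟩
  have h1 : Q (R.edges δ) (fun F => ∀ i ∈ s, (R.path δ F ∩ Metric.ball (z i) r).Nonempty) ≤
      Q (R.edges δ) (fun F => ∀ i ∈ s', TA (R.edges δ) (cv δ (z i)) k N F) := by
    refine Q_mono (fun F _ hF i hi => ?_)
    have hi' := (Finset.mem_filter.mp hi).1
    exact t9_det R hδ hδr hr0 (hb i hi') (hF i hi')
  have h2 : Q (R.edges δ) (fun F => ∀ i ∈ s', TA (R.edges δ) (cv δ (z i)) k N F) ≤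
      ∏ i ∈ s', C * ((k : ℝ) / ρd i) ^ (1/4 : ℝ) := by
    refine md hC hA s' (fun i => cv δ (z i)) ρd hk1 ?_ ?_
    · intro i hi
      obtain ⟨hi1, hi2⟩ := Finset.mem_filter.mp hi
      obtain ⟨g1, g2⟩ := hρd2 i hi2
      obtain ⟨p1, p2⟩ := hρ i hi1
      refine ⟨?_, ?_, ?_⟩
      · have : (k : ℝ) ≤ ρd i := by linarith
        exact_mod_cast this
      · apply Nat.floor_le_floor
        rw [div_le_div_iff₀ (by positivity) (by positivity)]
        nlinarith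
      · refine box_sub R hδ (by linarith) (hb i hi1) ?_
        refine (hρd1 i p1).trans ?_
        rw [div_le_div_iff₀ (by positivity) (by positivity)]
        nlinarith
    · intro i hi j hj hij
      obtain ⟨hi1, hi2⟩ := Finset.mem_filter.mp hi
      obtain ⟨hj1, hj2⟩ := Finset.mem_filter.mp hj
      obtain ⟨K, hK, -, hK2⟩ := nd_bounds (z := z i) (w := z j) hδ
      apply disj2 hK
      have q1 := hρd1 i (hρ i hi1).1
      have q2 := hρd1 j (hρ j hj1).1
      have q3 := hsep i hi1 j hj1 hij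
      have q4 := hρd2 i hi2
      have q5 := hρd2 j hj2
      have q6 : ρ i / (8 * δ) + ρ j / (8 * δ) ≤ dist (z i) (z j) / (8 * δ) := by
        rw [← add_div]
        gcongr
      have q7 : dist (z i) (z j) / (2 * δ) = 4 * (dist (z i) (z j) / (8 * δ)) := by
        field_simp <;> ring
      have q8 : (ρd i : ℝ) + ρd j < K := by
        rw [q7] at hK2
        linarith [q4.1, q4.2]
      exact_mod_cast q8
  refine (h1.trans h2).trans ?_
  rw [hs', Finset.prod_filter]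
  refine Finset.prod_le_prod (fun i _ => ?_) (fun i hi => ?_)
  · split_ifs <;> positivity
  · obtain ⟨p1, p2⟩ := hρ i hi
    split_ifs with hc
    · obtain ⟨g1, g2⟩ := hρd2 i hc
      have g3 : (0 : ℝ) < ρd i := by
        have : 0 < ρ i / (16 * δ) := by positivity
        linarith
      have g4 : (k : ℝ) / ρd i ≤ 96 * (r / ρ i) := by
        rw [div_le_iff₀ g3]
        calc (k : ℝ) ≤ 6 * (r / δ) := hk6
          _ = 96 * (r / ρ i) * (ρ i / (16 * δ)) := by field_simp <;> ring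
          _ ≤ _ := by gcongr
      have g5 : ((k : ℝ) / ρd i) ^ (1/4 : ℝ) ≤ 96 * (r / ρ i) ^ (1/4 : ℝ) := by
        calc ((k : ℝ) / ρd i) ^ (1/4 : ℝ) ≤ (96 * (r / ρ i)) ^ (1/4 : ℝ) :=
              Real.rpow_le_rpow (by positivity) g4 (by norm_num)
          _ = 96 ^ (1/4 : ℝ) * (r / ρ i) ^ (1/4 : ℝ) :=
              Real.mul_rpow (by norm_num) (by positivity)
          _ ≤ 96 * (r / ρ i) ^ (1/4 : ℝ) := by
              gcongr
              calc (96 : ℝ) ^ (1/4 : ℝ) ≤ 96 ^ (1 : ℝ) :=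
                    Real.rpow_le_rpow_of_exponent_le (by norm_num) (by norm_num)
                _ = 96 := Real.rpow_one _
      have g6 : 0 ≤ (r / ρ i) ^ (1/4 : ℝ) := by positivity
      calc C * ((k : ℝ) / ρd i) ^ (1/4 : ℝ) ≤ C * (96 * (r / ρ i) ^ (1/4 : ℝ)) := by gcongr
        _ ≤ _ := by nlinarith
    · push Not at hc
      have g1 : 1 / 256 ≤ r / ρ i := by
        rw [div_le_div_iff₀ (by norm_num) p1]
        linarith
      have g2 : (1 / 256 : ℝ) ≤ (r / ρ i) ^ (1/4 : ℝ) := by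
        calc (1 / 256 : ℝ) = (1 / 256 : ℝ) ^ (1 : ℝ) := (Real.rpow_one _).symm
          _ ≤ (1 / 256 : ℝ) ^ (1/4 : ℝ) :=
              Real.rpow_le_rpow_of_exponent_ge (by norm_num) (by norm_num) (by norm_num)
          _ ≤ _ := Real.rpow_le_rpow (by norm_num) g1 (by norm_num)
      nlinarith

/-- The many-point bound for the weak limits of the law of the trace. -/
theorem lim_many (R : Rect) {δ : ℕ → ℝ} (hδ : ∀ i, 0 < δ i) (hlim : Tendsto δ atTop (𝓝 0))
    {μ : ProbabilityMeasure (NonemptyCompacts ℂ)}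
    (hμ : Tendsto (fun i => R.law (hδ i)) atTop (𝓝 μ)) (s : Finset ℕ) (z : ℕ → ℂ) {r B : ℝ}
    (hr : 0 < r) (hB : 0 ≤ B)
    (h : ∀ η : ℝ, 0 < η → η ≤ 2 * r →
      Q (R.edges η) (fun F => ∀ i ∈ s, (R.path η F ∩ Metric.ball (z i) (2 * r)).Nonempty) ≤ B) :
    (μ : Measure (NonemptyCompacts ℂ)).real
      (⋂ i ∈ s, Hit (fun K : NonemptyCompacts ℂ => (K : Set ℂ)) (z i) r) ≤ B := by
  have ho : IsOpen (⋂ i ∈ s,
      {K : NonemptyCompacts ℂ | ((K : Set ℂ) ∩ Metric.ball (z i) (2 * r)).Nonempty}) :=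
    isOpen_biInter_finset fun i _ =>
      NonemptyCompacts.isOpen_inter_nonempty_of_isOpen Metric.isOpen_ball
  have h3 : (μ : Measure (NonemptyCompacts ℂ)) (⋂ i ∈ s,
      {K : NonemptyCompacts ℂ | ((K : Set ℂ) ∩ Metric.ball (z i) (2 * r)).Nonempty}) ≤
      ENNReal.ofReal B := by
    refine (ProbabilityMeasure.le_liminf_measure_open_of_tendsto hμ ho).trans ?_
    apply Filter.liminf_le_of_frequently_le'
    apply Eventually.frequently
    filter_upwards [hlim.eventually_lt_const (show 0 < 2 * r by positivity)] with i hi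
    rw [R.law_apply (hδ i) ho.measurableSet]
    apply ENNReal.ofReal_le_ofReal
    refine le_trans (Q_mono (fun F _ hF => ?_)) (h (δ i) (hδ i) hi.le)
    intro j hj
    exact Set.mem_iInter₂.mp hF j hj
  apply ENNReal.toReal_le_of_le_ofReal hB
  refine (measure_mono ?_).trans h3
  intro K hK
  rw [Set.mem_iInter₂] at hK ⊢
  intro i hi
  obtain ⟨x, hx1, hx2⟩ := hK i hi
  rw [Metric.mem_closedBall] at hx2
  refine ⟨x, hx1, ?_⟩
  rw [Metric.mem_ball]
  linarith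

theorem mp_lim {C : ℝ} (hC : 0 < C) (hA : AB C) (R : Rect) (hD : IsOpen R.D) {A : Set ℂ}
    (hAc : IsCompact A) (hAD : A ⊆ R.D) :
    ∃ C1 r1 s1 : ℝ, 0 < C1 ∧ 0 < r1 ∧ 0 < s1 ∧ ∀ (δ : ℕ → ℝ) (hδ : ∀ i, 0 < δ i),
      Tendsto δ atTop (𝓝 0) → ∀ μ : ProbabilityMeasure (NonemptyCompacts ℂ),
      Tendsto (fun i => R.law (hδ i)) atTop (𝓝 μ) →
      MP (μ : Measure (NonemptyCompacts ℂ)) (fun K : NonemptyCompacts ℂ => (K : Set ℂ)) A
        C1 r1 s1 := by
  obtain ⟨s0, hs0, hth⟩ := hAc.exists_thickening_subset_open hD hAD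
  have hball : ∀ z ∈ A, Metric.ball z s0 ⊆ R.D := fun z hz =>
    (Metric.ball_subset_thickening hz s0).trans hth
  refine ⟨(96 * C + 256) * 2, s0 / 128, s0, by positivity, by positivity, hs0, ?_⟩
  intro δ hδ hlim μ hμ s z ρ r hr hr1 hzA hρ hsep
  refine lim_many R hδ hlim hμ s z hr (Finset.prod_nonneg fun i hi => ?_) ?_
  · have := (hρ i hi).1
    positivity
  · intro η hη hη2
    refine (meshm hC hA R s z ρ hη hη2 (by linarith) (fun i hi => hball _ (hzA i hi)) hρ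
      hsep).trans ?_
    refine Finset.prod_le_prod (fun i hi => ?_) (fun i hi => ?_)
    · have := (hρ i hi).1
      positivity
    · have h0 := (hρ i hi).1
      have e : (2 * r / ρ i) ^ (1/4 : ℝ) ≤ 2 * (r / ρ i) ^ (1/4 : ℝ) := by
        rw [mul_div_assoc, Real.mul_rpow (by norm_num) (by positivity)]
        gcongr
        calc (2 : ℝ) ^ (1/4 : ℝ) ≤ 2 ^ (1 : ℝ) :=
              Real.rpow_le_rpow_of_exponent_le (by norm_num) (by norm_num)
          _ = 2 := Real.rpow_one _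
      calc (96 * C + 256) * (2 * r / ρ i) ^ (1/4 : ℝ) ≤
            (96 * C + 256) * (2 * (r / ρ i) ^ (1/4 : ℝ)) := by gcongr
        _ = _ := by ring

end Pool.Agent.Helper20K9.UL
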