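import Pool.Agent.TH966.HD.Fin
import Pool.Agent.Helper20K9.UL.Per
import Pool.Agent.Helper20K9.UL.NN
import Pool.Agent.Helper20K9.UL.BC
import Pool.Agent.Helper20K9.UL.Gen
import Pool.Agent.Helper20K9.UL.Cov
import Pool.Agent.Helper20K9.UL.Lin
import Pool.Agent.Helper20K9.UL.Cir
import Pool.Agent.Helper20K9.UL.Dli
import Pool.Agent.Helper54K9.UL.Det
import Pool.Agent.Helper54K9.UL.Mo
import Pool.Agent.Helper54K9.UL.Sh
import Pool.Agent.Helper54K9.UL.Fam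

/-!
Project UL: assembly.
-/

set_option autoImplicit false

namespace Pool.Agent.Helper20K9.UL

open MeasureTheory TopologicalSpace Filter Topology Metric
open Pool.Agent.TH966.HD (tr tr_compact map_real ess_trace)
open scoped ENNReal NNReal

theorem hitm0 (z : ℂ) (r : ℝ) :
    MeasurableSet (Hit (fun K : NonemptyCompacts ℂ => (K : Set ℂ)) z r) :=
  (NonemptyCompacts.isClosed_inter_nonempty_of_isClosed Metric.isClosed_closedBall).measurableSet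

theorem hitm (z : ℂ) (r : ℝ) : MeasurableSet (Hit tr z r) :=
  H443B.rgX_cont.measurable (hitm0 z r)

theorem X_mp (R : H984N.Rect) {A : Set ℂ} (hAc : IsCompact A) (hAD : A ⊆ R.D) {δ : ℕ → ℝ}
    (hδ : ∀ i, 0 < δ i) (hlim : Tendsto δ atTop (𝓝 0)) {μ : ProbabilityMeasure H984N.X}
    (hμ : Tendsto (fun i => R.law (δ i)) atTop (𝓝 μ)) :
    ∃ C r1 s1 : ℝ, 0 < C ∧ 0 < r1 ∧ 0 < s1 ∧ MP (μ : Measure H984N.X) tr A C r1 s1 := by
  obtain ⟨C, hC, hA⟩ := H985T.st_A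
  obtain ⟨C1, r1, s1, hC1, hr1, hs1, h⟩ := mp_lim hC hA (H443B.toE R) (H443B.isOpen_D R) hAc hAD
  refine ⟨C1, r1, s1, hC1, hr1, hs1, ?_⟩
  have hμ' := H443B.limit_trace R hδ hlim hμ
  intro s z ρ r hr hr1' hzA hρ hsep
  have h2 := h δ hδ hlim _ hμ' s z ρ r hr hr1' hzA hρ hsep
  rw [map_real μ (Finset.measurableSet_biInter s fun i _ => hitm0 (z i) r)] at h2
  refine le_trans (le_of_eq ?_) h2
  congr 1
  rw [Set.preimage_iInter₂]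
  rfl

theorem isBounded_D (R : H984N.Rect) : Bornology.IsBounded R.D := by
  rw [Metric.isBounded_iff_subset_closedBall 0]
  refine ⟨|R.A| + |R.B| + |R.H|, ?_⟩
  rintro z ⟨h1, h2, h3, h4⟩
  rw [mem_closedBall, dist_zero_right]
  refine (Complex.norm_le_abs_re_add_abs_im z).trans ?_
  have a1 := abs_nonneg R.A
  have a2 := abs_nonneg R.B
  have a3 := le_abs_self R.A
  have a4 := le_abs_self R.B
  have a5 := le_abs_self R.H
  have b1 : |z.re| ≤ |R.A| + |R.B| := abs_le.mpr ⟨by linarith, by linarith⟩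
  have b2 : |z.im| ≤ |R.H| := abs_le.mpr ⟨by linarith, by linarith⟩
  linarith

/-- The uniform bound. -/
theorem fin_gen (R : H984N.Rect) {δ : ℕ → ℝ} (hδ : ∀ i, 0 < δ i) (hlim : Tendsto δ atTop (𝓝 0))
    {μ : ProbabilityMeasure H984N.X} (hμ : Tendsto (fun i => R.law (δ i)) atTop (𝓝 μ))
    (𝒮 : Set (Set ℂ)) {β : ℝ} (hβ : 1/2 < β) (hE : Ent 𝒮 β) :
    ∀ᵐ p ∂(μ : Measure H984N.X), ∀ S ∈ 𝒮, dimH (tr p ∩ S ∩ R.D) ≤ ENNReal.ofReal (β - 1/4) :=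
  gen (bc (tb nn) Helper54K9.UL.mo) Helper54K9.UL.sh Helper54K9.UL.det (μ : Measure H984N.X) tr hitm
    R.D (H443B.isOpen_D R) (isBounded_D R)
    (fun _ hAc hAD => X_mp R hAc hAD hδ hlim hμ) 𝒮 β hβ hE

/-- Uniform coverings. -/
theorem fin_cov (R : H984N.Rect) {δ : ℕ → ℝ} (hδ : ∀ i, 0 < δ i) (hlim : Tendsto δ atTop (𝓝 0))
    {μ : ProbabilityMeasure H984N.X} (hμ : Tendsto (fun i => R.law (δ i)) atTop (𝓝 μ))
    {𝒮 : Set (Set ℂ)} {β : ℝ} (hβ : 1/2 < β) (hE : Ent 𝒮 β) {A : Set ℂ} (hA : IsCompact A)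
    (hAD : A ⊆ R.D) :
    ∀ᵐ p ∂(μ : Measure H984N.X), ∀ ε : ℝ, 0 < ε → ∀ᶠ n : ℕ in atTop, ∀ S ∈ 𝒮,
      ∃ J : Finset ℂ, (J.card : ℝ) ≤ (2 : ℝ) ^ ((β - 1/4 + ε) * n) ∧
        tr p ∩ S ∩ A ⊆ ⋃ x ∈ J, closedBall x ((2 : ℝ) ^ (-(n : ℝ))) :=
  cov (bc (tb nn) Helper54K9.UL.mo) Helper54K9.UL.sh (μ : Measure H984N.X) tr hitm
    (H443B.isOpen_D R) (fun _ hAc hAD => X_mp R hAc hAD hδ hlim hμ) hβ hE hA hAD

theorem e34 : ENNReal.ofReal (1 - 1/4) = 3 / 4 := by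
  rw [show (1 - 1/4 : ℝ) = 3 / 4 by norm_num, ENNReal.ofReal_div_of_pos (by norm_num)]
  norm_num

/-- All lines. -/
theorem fin_lin (R : H984N.Rect) {δ : ℕ → ℝ} (hδ : ∀ i, 0 < δ i) (hlim : Tendsto δ atTop (𝓝 0))
    {μ : ProbabilityMeasure H984N.X} (hμ : Tendsto (fun i => R.law (δ i)) atTop (𝓝 μ)) :
    ∀ᵐ p ∂(μ : Measure H984N.X), ∀ a v : ℂ, v ≠ 0 →
      dimH (tr p ∩ {z : ℂ | ∃ t : ℝ, z = a + t * v} ∩ R.D) ≤ 3 / 4 := by
  obtain ⟨r, hr⟩ := (Metric.isBounded_iff_subset_closedBall 0).mp (isBounded_D R)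
  obtain ⟨n, hn⟩ := exists_nat_ge r
  obtain ⟨𝒮, hE, h⟩ := lin Helper54K9.UL.fam n
  filter_upwards [fin_gen R hδ hlim hμ 𝒮 (by norm_num : (1:ℝ)/2 < 1) hE] with p hp a v hv
  obtain ⟨S, hS, hsub⟩ := h a v hv
  rw [← e34]
  refine (dimH_mono ?_).trans (hp S hS)
  rintro z ⟨⟨h1, h2⟩, h3⟩
  refine ⟨⟨h1, hsub ⟨h2, ?_⟩⟩, h3⟩
  exact closedBall_subset_closedBall (by linarith) (hr h3)

/-- All circles. -/
theorem fin_cir (R : H984N.Rect) {δ : ℕ → ℝ} (hδ : ∀ i, 0 < δ i) (hlim : Tendsto δ atTop (𝓝 0))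
    {μ : ProbabilityMeasure H984N.X} (hμ : Tendsto (fun i => R.law (δ i)) atTop (𝓝 μ)) :
    ∀ᵐ p ∂(μ : Measure H984N.X), ∀ (c : ℂ) (ρ : ℝ), 0 < ρ →
      dimH (tr p ∩ sphere c ρ ∩ R.D) ≤ 3 / 4 := by
  choose 𝒮 hE h using fun n => cir Helper54K9.UL.fam n
  have key : ∀ n, ∀ᵐ p ∂(μ : Measure H984N.X), ∀ S ∈ 𝒮 n,
      dimH (tr p ∩ S ∩ R.D) ≤ ENNReal.ofReal (1 - 1/4) := fun n =>
    fin_gen R hδ hlim hμ (𝒮 n) (by norm_num : (1:ℝ)/2 < 1) (hE n)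
  filter_upwards [ae_all_iff.mpr key] with p hp c ρ hρ
  obtain ⟨n, hn⟩ := exists_nat_ge (max ‖c‖ (max ρ (1 / ρ)))
  have h1 : ‖c‖ ≤ n := (le_max_left _ _).trans hn
  have h2 : ρ ≤ n := ((le_max_left _ _).trans (le_max_right _ _)).trans hn
  have h3 : 1 / ρ ≤ n := ((le_max_right _ _).trans (le_max_right _ _)).trans hn
  have h4 : 1 / ((n : ℝ) + 1) ≤ ρ := by
    rw [div_le_iff₀ (by positivity)]
    rw [div_le_iff₀ hρ] at h3
    nlinarith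
  obtain ⟨S, hS, hsub⟩ := h n c ρ (by linarith) h4 (by linarith)
  have h5 : tr p ∩ sphere c ρ ∩ R.D ⊆ ⋃ i, (tr p ∩ S i ∩ R.D) := by
    rintro z ⟨⟨g1, g2⟩, g3⟩
    obtain ⟨i, hi⟩ := Set.mem_iUnion.mp (hsub g2)
    exact Set.mem_iUnion.mpr ⟨i, ⟨g1, hi⟩, g3⟩
  refine (dimH_mono h5).trans ?_
  rw [dimH_iUnion, ← e34]
  exact iSup_le fun i => hp n (S i) (hS i)

/-- Sharpness. -/
theorem fin_sharp (R : H984N.Rect) {δ : ℕ → ℝ} (hδ : ∀ i, 0 < δ i) (hlim : Tendsto δ atTop (𝓝 0))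
    {μ : ProbabilityMeasure H984N.X} (hμ : Tendsto (fun i => R.law (δ i)) atTop (𝓝 μ))
    (a v : ℂ) (hv : v ≠ 0) (hne : ({z : ℂ | ∃ t : ℝ, z = a + t * v} ∩ R.D).Nonempty) :
    essSup (fun p : H984N.X => dimH (tr p ∩ {z : ℂ | ∃ t : ℝ, z = a + t * v} ∩ R.D))
      (μ : Measure H984N.X) = 3 / 4 := by
  obtain ⟨h1, h2⟩ := dli R.D a v (H443B.isOpen_D R) hv hne
  have h3 := ess_trace R hδ hlim hμ h1 Set.inter_subset_right
  rw [h2] at h3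
  have e : (1 : ℝ≥0∞) - 1 / 4 = 3 / 4 := by
    rw [← e34, ENNReal.ofReal_sub _ (by norm_num), ENNReal.ofReal_one,
      ENNReal.ofReal_div_of_pos (by norm_num), ENNReal.ofReal_one]
    congr 2
    norm_num
  rw [e] at h3
  simpa only [Set.inter_assoc] using h3

/-- From the dimension of the image to the dimension of the set of times. -/
theorem times {x y : ℝ≥0∞} {b : ℝ} (hb : 0 ≤ b) (h : x = 7 / 4 * y) (hx : x ≤ ENNReal.ofReal b) :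
    y ≤ ENNReal.ofReal (4/7 * b) := by
  have e2 : (4 / 7 : ℝ≥0∞) * (7 / 4) = 1 := by
    have a1 : (4 / 7 : ℝ≥0∞) = ENNReal.ofReal (4 / 7) := by
      rw [ENNReal.ofReal_div_of_pos (by norm_num)]; norm_num
    have a2 : (7 / 4 : ℝ≥0∞) = ENNReal.ofReal (7 / 4) := by
      rw [ENNReal.ofReal_div_of_pos (by norm_num)]; norm_num
    rw [a1, a2, ← ENNReal.ofReal_mul (by norm_num)]
    norm_num
  have a1 : (4 / 7 : ℝ≥0∞) = ENNReal.ofReal (4 / 7) := by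
    rw [ENNReal.ofReal_div_of_pos (by norm_num)]; norm_num
  calc y = (4 / 7 : ℝ≥0∞) * (7 / 4) * y := by rw [e2, one_mul]
    _ = 4 / 7 * x := by rw [h, mul_assoc]
    _ ≤ 4 / 7 * ENNReal.ofReal b := by gcongr
    _ = ENNReal.ofReal (4/7 * b) := by rw [a1, ← ENNReal.ofReal_mul (by norm_num)]

end Pool.Agent.Helper20K9.UL
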