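import Pool.Agent.Helper77K9.UL.Mcl

/-!
Project UL, part 2: [MCL] under the name which the assembly uses.
-/

set_option autoImplicit false

namespace Pool.Agent.Helper20K9.UL

open H934E MeasureTheory TopologicalSpace Filter Topology
open Pool.Agent.H389R2.CD Pool.Agent.H389R2.CL
open Pool.Agent.TH966.CF (U)

theorem mcl (hAr : ArS) (R : Rect) {η : ℝ} (hη : 0 < η) {A : Set ℂ} (hA : IsCompact A)
    (hAD : A ⊆ R.D) : ∃ C r1 s1 : ℝ, 0 < C ∧ 0 < r1 ∧ 0 < s1 ∧ ∀ (δ : ℕ → ℝ),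
      (∀ i, 0 < δ i) → Tendsto δ atTop (𝓝 0) →
      ∀ μ : ProbabilityMeasure (NonemptyCompacts (NonemptyCompacts ℂ)),
        Tendsto (fun i => collLaw R (δ i)) atTop (𝓝 μ) →
        MPa (5 / 48) (μ : Measure (NonemptyCompacts (NonemptyCompacts ℂ))) (U η) A C r1 s1 :=
  Helper77K9.UL.mcl hAr R hη hA hAD

end Pool.Agent.Helper20K9.UL
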