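import Pool.Agent.TH966.CF.Fin
import Pool.Agent.Helper20K9.UL.Mcl
import Pool.Agent.Helper80K9.UL.GenA
import Pool.Agent.Helper80K9.UL.NnA
import Pool.Agent.Helper80K9.UL.MoA
import Pool.Agent.Helper80K9.UL.BcA
import Pool.Agent.Helper80K9.UL.ShA
import Pool.Agent.Helper20K9.UL.Lin
import Pool.Agent.Helper20K9.UL.Cir
import Pool.Agent.Helper20K9.UL.Dli
import Pool.Agent.Helper54K9.UL.Det
import Pool.Agent.Helper54K9.UL.Fam

/-!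
Project UL, part 2: assembly for the clusters.
-/

set_option autoImplicit false

namespace Pool.Agent.Helper20K9.UL

open H934E MeasureTheory TopologicalSpace Filter Topology Metric
open Pool.Agent.H389R2.CD Pool.Agent.H389R2.CL
open Pool.Agent.TH966.CF (U)
open scoped ENNReal NNReal

theorem genA (a : ℝ) : Sa_GEN a :=
  Helper80K9.UL.gena a (Helper80K9.UL.bca a (Helper80K9.UL.tba a (Helper80K9.UL.nna a))
    (Helper80K9.UL.moa a)) (Helper80K9.UL.sha a) Helper54K9.UL.det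

theorem bddE (R : H934E.Rect) : Bornology.IsBounded R.D := by
  rw [Metric.isBounded_iff_subset_closedBall 0]
  refine ⟨|R.A| + |R.B| + |R.H|, ?_⟩
  rintro z ⟨h1, h2, h3, h4⟩
  rw [mem_closedBall, dist_zero_right]
  refine (Complex.norm_le_abs_re_add_abs_im z).trans ?_
  have a1 := abs_nonneg R.A
  have a2 := abs_nonneg R.B
  have a3 := le_abs_self R.A
  have a4 := le_abs_self R.B
  have a5 := le_abs_self R.H
  have b1 : |z.re| ≤ |R.A| + |R.B| := abs_le.mpr ⟨by linarith, by linarith⟩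
  have b2 : |z.im| ≤ |R.H| := abs_le.mpr ⟨by linarith, by linarith⟩
  linarith

section

variable (hAr : ArS) (R : H934E.Rect) {δ : ℕ → ℝ} (hδ : ∀ i, 0 < δ i)
  (hlim : Tendsto δ atTop (𝓝 0)) {μ : ProbabilityMeasure (NonemptyCompacts (NonemptyCompacts ℂ))}
  (hμ : Tendsto (fun i => collLaw R (δ i)) atTop (𝓝 μ))

include hAr hδ hlim hμ

theorem clu_gen (𝒮 : Set (Set ℂ)) {β : ℝ} (hβ : 5 / 24 < β) (hE : Ent 𝒮 β) :
    ∀ᵐ 𝒞 : NonemptyCompacts (NonemptyCompacts ℂ)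
      ∂(μ : Measure (NonemptyCompacts (NonemptyCompacts ℂ))),
      ∀ K ∈ 𝒞, (K : Set ℂ).Nontrivial → ∀ S ∈ 𝒮,
        dimH ((K : Set ℂ) ∩ S ∩ R.D) ≤ ENNReal.ofReal (β - 5/48) := by
  have h : ∀ n : ℕ, ∀ᵐ 𝒞 : NonemptyCompacts (NonemptyCompacts ℂ)
      ∂(μ : Measure (NonemptyCompacts (NonemptyCompacts ℂ))),
      ∀ S ∈ 𝒮, dimH (U (1 / ((n : ℝ) + 1)) 𝒞 ∩ S ∩ R.D) ≤ ENNReal.ofReal (β - 5/48) := by
    intro n
    exact genA (5/48) (by norm_num) (μ : Measure (NonemptyCompacts (NonemptyCompacts ℂ)))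
      (U (1 / ((n : ℝ) + 1))) (fun z r => Pool.Agent.TH966.CF.hit_meas _ z r) R.D
      (Pool.Agent.TH966.CF.isOpen_D R) (bddE R)
      (fun A hA hAD => by
        obtain ⟨C, r1, s1, h1, h2, h3, h4⟩ := mcl hAr R
          (show (0 : ℝ) < 1 / ((n : ℝ) + 1) by positivity) hA hAD
        exact ⟨C, r1, s1, h1, h2, h3, h4 δ hδ hlim μ hμ⟩) 𝒮 β (by linarith) hE
  filter_upwards [ae_all_iff.mpr h] with 𝒞 h𝒞 K hK hnt S hS
  have hd : 0 < diam (K : Set ℂ) := by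
    obtain ⟨x, hx, y, hy, hxy⟩ := hnt
    exact lt_of_lt_of_le (dist_pos.mpr hxy) (dist_le_diam_of_mem K.isCompact.isBounded hx hy)
  obtain ⟨n, hn⟩ := exists_nat_one_div_lt hd
  refine (dimH_mono ?_).trans (h𝒞 n S hS)
  rintro x ⟨⟨hx1, hx2⟩, hx3⟩
  exact ⟨⟨⟨K, hK, hn.le, hx1⟩, hx2⟩, hx3⟩

theorem clu_lin :
    ∀ᵐ 𝒞 : NonemptyCompacts (NonemptyCompacts ℂ)
      ∂(μ : Measure (NonemptyCompacts (NonemptyCompacts ℂ))),
      ∀ K ∈ 𝒞, (K : Set ℂ).Nontrivial → ∀ a v : ℂ, v ≠ 0 →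
        dimH ((K : Set ℂ) ∩ {z : ℂ | ∃ t : ℝ, z = a + t * v} ∩ R.D) ≤
          ENNReal.ofReal (1 - 5/48) := by
  obtain ⟨r, hr⟩ := (Metric.isBounded_iff_subset_closedBall 0).mp (bddE R)
  obtain ⟨n, hn⟩ := exists_nat_ge r
  obtain ⟨𝒮, hE, h⟩ := lin Helper54K9.UL.fam n
  filter_upwards [clu_gen hAr R hδ hlim hμ 𝒮 (by norm_num : (5:ℝ)/24 < 1) hE]
    with 𝒞 h𝒞 K hK hnt a v hv
  obtain ⟨S, hS, hsub⟩ := h a v hv
  refine (dimH_mono ?_).trans (h𝒞 K hK hnt S hS)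
  rintro z ⟨⟨h1, h2⟩, h3⟩
  refine ⟨⟨h1, hsub ⟨h2, ?_⟩⟩, h3⟩
  exact closedBall_subset_closedBall (by linarith) (hr h3)

theorem clu_cir :
    ∀ᵐ 𝒞 : NonemptyCompacts (NonemptyCompacts ℂ)
      ∂(μ : Measure (NonemptyCompacts (NonemptyCompacts ℂ))),
      ∀ K ∈ 𝒞, (K : Set ℂ).Nontrivial → ∀ (c : ℂ) (ρ : ℝ), 0 < ρ →
        dimH ((K : Set ℂ) ∩ sphere c ρ ∩ R.D) ≤ ENNReal.ofReal (1 - 5/48) := by
  choose 𝒮 hE h using fun n => cir Helper54K9.UL.fam n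
  filter_upwards [ae_all_iff.mpr (fun n => clu_gen hAr R hδ hlim hμ (𝒮 n)
    (by norm_num : (5:ℝ)/24 < 1) (hE n))] with 𝒞 h𝒞 K hK hnt c ρ hρ
  obtain ⟨n, hn⟩ := exists_nat_ge (max ‖c‖ (max ρ (1 / ρ)))
  have h1 : ‖c‖ ≤ n := (le_max_left _ _).trans hn
  have h2 : ρ ≤ n := ((le_max_left _ _).trans (le_max_right _ _)).trans hn
  have h3 : 1 / ρ ≤ n := ((le_max_right _ _).trans (le_max_right _ _)).trans hn
  have h4 : 1 / ((n : ℝ) + 1) ≤ ρ := by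
    rw [div_le_iff₀ (by positivity)]
    rw [div_le_iff₀ hρ] at h3
    nlinarith
  obtain ⟨S, hS, hsub⟩ := h n c ρ (by linarith) h4 (by linarith)
  have h5 : (K : Set ℂ) ∩ sphere c ρ ∩ R.D ⊆ ⋃ i, ((K : Set ℂ) ∩ S i ∩ R.D) := by
    rintro z ⟨⟨g1, g2⟩, g3⟩
    obtain ⟨i, hi⟩ := Set.mem_iUnion.mp (hsub g2)
    exact Set.mem_iUnion.mpr ⟨i, ⟨g1, hi⟩, g3⟩
  refine (dimH_mono h5).trans ?_
  rw [dimH_iUnion]
  exact iSup_le fun i => h𝒞 n K hK hnt (S i) (hS i)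

theorem clu_sharp (a v : ℂ) (hv : v ≠ 0)
    (hne : ({z : ℂ | ∃ t : ℝ, z = a + t * v} ∩ R.D).Nonempty) :
    ∀ᵐ 𝒞 : NonemptyCompacts (NonemptyCompacts ℂ)
      ∂(μ : Measure (NonemptyCompacts (NonemptyCompacts ℂ))),
      ⨆ K ∈ {K : NonemptyCompacts ℂ | K ∈ 𝒞 ∧ (K : Set ℂ).Nontrivial},
        dimH ((K : Set ℂ) ∩ {z : ℂ | ∃ t : ℝ, z = a + t * v} ∩ R.D) =
          ENNReal.ofReal (1 - 5/48) := by
  obtain ⟨h1, h2⟩ := dli R.D a v (Pool.Agent.TH966.CF.isOpen_D R) hv hne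
  filter_upwards [Pool.Agent.TH966.CF.dim_ae hAr R hδ hlim hμ h1 Set.inter_subset_right]
    with 𝒞 h𝒞
  rw [h2] at h𝒞
  rw [ENNReal.ofReal_sub _ (by norm_num), ENNReal.ofReal_one, ← h𝒞]
  simp only [Set.inter_assoc]

end

end Pool.Agent.Helper20K9.UL
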