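import Pool.Agent.Helper20K9.UL.Stm

/-!
Project UL, part 2: the same with a general exponent `a` in place of `1/4`.
-/

set_option autoImplicit false

namespace Pool.Agent.Helper20K9.UL

open MeasureTheory Filter Topology Metric Set
open scoped ENNReal NNReal

/-- Many-point bound: separated centres in `A`. -/
def MPa (a : ℝ) {Ω : Type*} [MeasurableSpace Ω] (μ : Measure Ω) (K : Ω → Set ℂ) (A : Set ℂ)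
    (C r1 s1 : ℝ) : Prop :=
  ∀ (s : Finset ℕ) (z : ℕ → ℂ) (ρ : ℕ → ℝ) (r : ℝ), 0 < r → r ≤ r1 → (∀ i ∈ s, z i ∈ A) →
    (∀ i ∈ s, 0 < ρ i ∧ ρ i ≤ s1) →
    (∀ i ∈ s, ∀ j ∈ s, i ≠ j → ρ i + ρ j ≤ dist (z i) (z j)) →
    μ.real (⋂ i ∈ s, Hit K (z i) r) ≤ ∏ i ∈ s, C * (r / ρ i) ^ a

/-- [NN] choice of separated radii. -/
def Sa_NN (a : ℝ) : Prop := 0 < a → ∀ (M s1 : ℝ), 0 < M → 0 < s1 → ∀ m : ℕ, ∃ C : ℝ, 0 < C ∧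
  ∀ (x : ℕ → ℂ) (r : ℝ), 0 < r → r ≤ 1 → (∀ i < m, ∀ j < m, dist (x i) (x j) ≤ M) →
    ∃ (s : Finset ℕ) (ρ : ℕ → ℝ), s ⊆ Finset.range m ∧ (∀ i ∈ s, 0 < ρ i ∧ ρ i ≤ s1) ∧
      (∀ i ∈ s, ∀ j ∈ s, i ≠ j → ρ i + ρ j ≤ dist (x i) (x j)) ∧
      ∏ i ∈ s, (r / ρ i) ^ a ≤ C * (r ^ a) ^ m *
        ∏ l ∈ Finset.Ico 1 m, ∑ j ∈ Finset.range l, (max (dist (x l) (x j)) r) ^ (-(2 * a))

/-- [TB] the bound for all tuples. -/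
def Sa_TB (a : ℝ) : Prop := 0 < a → ∀ {Ω : Type} [MeasurableSpace Ω] (μ : Measure Ω) [IsProbabilityMeasure μ]
  (K : Ω → Set ℂ) (A : Set ℂ) (C r1 s1 : ℝ), Bornology.IsBounded A → 0 < C → 0 < s1 →
  MPa a μ K A C r1 s1 → ∀ m : ℕ, ∃ C' : ℝ, 0 < C' ∧ ∀ (x : ℕ → ℂ) (r : ℝ), 0 < r → r ≤ r1 → r ≤ 1 →
    (∀ i < m, x i ∈ A) → μ.real (⋂ i ∈ Finset.range m, Hit K (x i) r) ≤
      C' * (r ^ a) ^ m *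
        ∏ l ∈ Finset.Ico 1 m, ∑ j ∈ Finset.range l, (max (dist (x l) (x j)) r) ^ (-(2 * a))

/-- [MO] moments and Markov's inequality. -/
def Sa_MO (a : ℝ) : Prop := 0 < a → ∀ {Ω : Type} [MeasurableSpace Ω] (μ : Measure Ω) [IsProbabilityMeasure μ]
  (K : Ω → Set ℂ), (∀ z r, MeasurableSet (Hit K z r)) → ∀ (m : ℕ), 1 ≤ m → ∀ (T : Finset ℂ)
  (r C B L : ℝ), 0 < r → 0 ≤ C → 0 ≤ B → 0 < L →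
  (∀ x : ℕ → ℂ, (∀ i < m, x i ∈ T) → μ.real (⋂ i ∈ Finset.range m, Hit K (x i) r) ≤
    C * ∏ l ∈ Finset.Ico 1 m, ∑ j ∈ Finset.range l, (max (dist (x l) (x j)) r) ^ (-(2 * a))) →
  (∀ y ∈ T, ∑ x ∈ T, (max (dist x y) r) ^ (-(2 * a)) ≤ B) →
  L ^ m * μ.real {ω | L ≤ cnt K T r ω} ≤ C * T.card * (m * B) ^ (m - 1)

/-- [BC] Borel-Cantelli for families of polynomial size at the scales `2 ^ (-n)`. -/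
def Sa_BC (a : ℝ) : Prop := 0 < a → ∀ {Ω : Type} [MeasurableSpace Ω] (μ : Measure Ω) [IsProbabilityMeasure μ]
  (K : Ω → Set ℂ), (∀ z r, MeasurableSet (Hit K z r)) → ∀ (A : Set ℂ) (C r1 s1 : ℝ),
  Bornology.IsBounded A → 0 < C → 0 < r1 → 0 < s1 → MPa a μ K A C r1 s1 →
  ∀ (k : ℕ) (Q β ε : ℝ) (𝒯 : ℕ → Finset (Finset ℂ)), 0 < Q → 0 < ε → 0 ≤ β →
  (∀ n, ((𝒯 n).card : ℝ) ≤ Q * 2 ^ (k * n)) →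
  (∀ n, ∀ T ∈ 𝒯 n, (∀ x ∈ T, x ∈ A) ∧ (T.card : ℝ) ≤ Q * (2 : ℝ) ^ (β * n) ∧
    ∀ y ∈ T, ∑ x ∈ T, (max (dist x y) ((2 : ℝ) ^ (-(n : ℝ)))) ^ (-(2 * a)) ≤
      Q * (2 : ℝ) ^ (β * n)) →
  ∀ᵐ ω ∂μ, ∀ᶠ n : ℕ in atTop, ∀ T ∈ 𝒯 n,
    cnt K T ((2 : ℝ) ^ (-(n : ℝ))) ω ≤ (2 : ℝ) ^ ((β - a + ε) * n)

/-- [SH] sums over regular sets. -/
def Sa_SH (a : ℝ) : Prop := 0 < a → ∀ (Q β M : ℝ), 0 < Q → 2 * a < β → 0 < M → ∃ C : ℝ, 0 < C ∧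
  ∀ (T : Finset ℂ) (n : ℕ), (∀ x ∈ T, ∀ y ∈ T, dist x y ≤ M) →
    (∀ (x : ℂ) (ρ : ℝ), (2 : ℝ) ^ (-(n : ℝ)) ≤ ρ →
      ((T : Set ℂ) ∩ closedBall x ρ).ncard ≤ Q * (ρ * 2 ^ (n : ℝ)) ^ β) →
    (T.card : ℝ) ≤ C * (2 : ℝ) ^ (β * n) ∧
    ∀ y ∈ T, ∑ x ∈ T, (max (dist x y) ((2 : ℝ) ^ (-(n : ℝ)))) ^ (-(2 * a)) ≤
      C * (2 : ℝ) ^ (β * n)

/-- [GEN] the uniform bound for a family of polynomial entropy. -/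
def Sa_GEN (a : ℝ) : Prop := 0 < a → ∀ {Ω : Type} [MeasurableSpace Ω] (μ : Measure Ω) [IsProbabilityMeasure μ]
  (K : Ω → Set ℂ), (∀ z r, MeasurableSet (Hit K z r)) → ∀ (D : Set ℂ), IsOpen D →
  Bornology.IsBounded D →
  (∀ A : Set ℂ, IsCompact A → A ⊆ D → ∃ C r1 s1 : ℝ, 0 < C ∧ 0 < r1 ∧ 0 < s1 ∧ MPa a μ K A C r1 s1) →
  ∀ (𝒮 : Set (Set ℂ)) (β : ℝ), 2 * a < β → Ent 𝒮 β →
  ∀ᵐ ω ∂μ, ∀ S ∈ 𝒮, dimH (K ω ∩ S ∩ D) ≤ ENNReal.ofReal (β - a)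

end Pool.Agent.Helper20K9.UL
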